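import Mathlib

/-!
# Equitransitive tilings containing every `n`-omino

The polyomino `om` below has 53 cells and is a topological disc:

```
######.######
#.....J.....#
#.#########.#
#.....#.....#
#.....#.....#
#.....#.....#
#.....#.....#
#.....#.....#
#############
```

Suppose it is a tile of a tiling of the plane by 53-ominoes (placed by arbitrary isometries).  A square
of another tile with a point in the middle of one of the two corridors has its sides parallel to the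
axes.  So a tile whose sides are not parallel to the axes and which has a point in one of the rooms is
trapped there, and the rooms are too small for that.  A tile with sides parallel to the axes and with a
point in a room can be moved by less than one unit in both directions so that its cells become cells of
the lattice; as the room and its corridor have only 31 cells, it must then contain the cell `J`.  Hence
the two rooms belong to the same tile, whose area is only 53, although the two rooms (without the ends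
of the corridors) have area 58.
-/

set_option autoImplicit false

namespace Pool.Agent.Results.MP_60dc17_co.TwoRooms

open Set MeasureTheory

/-! ### Definitions used in the statement -/

/-- The closed unit cell with lower left corner `c`.  The plane is `ℂ`. -/
def cell (c : ℤ × ℤ) : Set ℂ :=
  {z | (c.1 : ℝ) ≤ z.re ∧ z.re ≤ c.1 + 1 ∧ (c.2 : ℝ) ≤ z.im ∧ z.im ≤ c.2 + 1}

/-- The union of the cells in `K`. -/
def region (K : Finset (ℤ × ℤ)) : Set ℂ := ⋃ c ∈ K, cell c

/-- `K` is (the set of cells of) an `n`-omino: it consists of `n` cells, and their union is a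
topological disc, that is, homeomorphic to the closed unit disc. -/
def IsOmino (n : ℕ) (K : Finset (ℤ × ℤ)) : Prop :=
  K.card = n ∧ Nonempty (region K ≃ₜ Metric.closedBall (0 : ℂ) 1)

/-- `B` is congruent to `A` (reflections are allowed). -/
def Congruent (A B : Set ℂ) : Prop := ∃ φ : ℂ ≃ᵢ ℂ, φ '' A = B

/-- A tiling of the plane: countably many closed sets with pairwise disjoint interiors which cover
the plane. -/
def IsTiling (𝒯 : Set (Set ℂ)) : Prop :=
  𝒯.Countable ∧ (∀ A ∈ 𝒯, IsClosed A) ∧ ⋃₀ 𝒯 = univ ∧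
    ∀ A ∈ 𝒯, ∀ B ∈ 𝒯, A ≠ B → Disjoint (interior A) (interior B)

/-- All tiles are `n`-ominoes, placed by arbitrary isometries. -/
def ByOminoes (n : ℕ) (𝒯 : Set (Set ℂ)) : Prop :=
  ∀ A ∈ 𝒯, ∃ K : Finset (ℤ × ℤ), IsOmino n K ∧ Congruent (region K) A

/-- Every shape of `n`-omino occurs. -/
def AllShapes (n : ℕ) (𝒯 : Set (Set ℂ)) : Prop :=
  ∀ K : Finset (ℤ × ℤ), IsOmino n K → ∃ A ∈ 𝒯, Congruent (region K) A

/-- `φ` maps the tiling onto itself. -/
def IsSymmetry (𝒯 : Set (Set ℂ)) (φ : ℂ ≃ᵢ ℂ) : Prop := (fun A => φ '' A) '' 𝒯 = 𝒯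

/-- Any two congruent tiles are equivalent under the symmetry group of the tiling. -/
def Equitransitive (𝒯 : Set (Set ℂ)) : Prop :=
  ∀ A ∈ 𝒯, ∀ B ∈ 𝒯, Congruent A B → ∃ φ : ℂ ≃ᵢ ℂ, IsSymmetry 𝒯 φ ∧ φ '' A = B

/-- The question: for every `n ≥ 1`, is there an equitransitive tiling by `n`-ominoes in which every
shape of `n`-omino occurs? -/
def Question : Prop :=
  ∀ n : ℕ, 1 ≤ n → ∃ 𝒯 : Set (Set ℂ),
    IsTiling 𝒯 ∧ ByOminoes n 𝒯 ∧ AllShapes n 𝒯 ∧ Equitransitive 𝒯

/-! ### Cells and rectangles -/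

/-- Two cells share an edge. -/
def Adj (c d : ℤ × ℤ) : Prop :=
  (c.1 = d.1 ∧ |c.2 - d.2| = 1) ∨ (c.2 = d.2 ∧ |c.1 - d.1| = 1)

instance : DecidableRel Adj := fun c d => by unfold Adj; infer_instance

/-- Any two cells of `K` are joined by a chain of cells of `K` in which consecutive cells share an edge. -/
def EdgeConnected (K : Set (ℤ × ℤ)) : Prop :=
  ∀ c ∈ K, ∀ d ∈ K, Relation.ReflTransGen (fun a b => Adj a b ∧ b ∈ K) c d

/-- open cell -/
def ocell (c : ℤ × ℤ) : Set ℂ :=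
  {z | (c.1 : ℝ) < z.re ∧ z.re < c.1 + 1 ∧ (c.2 : ℝ) < z.im ∧ z.im < c.2 + 1}

/-- open rectangle -/
def orect (a b c d : ℝ) : Set ℂ := {z | a < z.re ∧ z.re < b ∧ c < z.im ∧ z.im < d}

lemma isOpen_orect (a b c d : ℝ) : IsOpen (orect a b c d) := by
  unfold orect
  refine IsOpen.inter (isOpen_lt continuous_const Complex.continuous_re) ?_
  refine IsOpen.inter (isOpen_lt Complex.continuous_re continuous_const) ?_
  exact IsOpen.inter (isOpen_lt continuous_const Complex.continuous_im)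
    (isOpen_lt Complex.continuous_im continuous_const)

lemma convex_orect (a b c d : ℝ) : Convex ℝ (orect a b c d) := by
  intro x hx y hy s t hs ht hst
  obtain ⟨h1, h2, h3, h4⟩ := hx
  obtain ⟨g1, g2, g3, g4⟩ := hy
  simp only [orect, mem_ofPred_eq, Complex.add_re, Complex.add_im, Complex.real_smul,
    Complex.mul_re, Complex.mul_im, Complex.ofReal_re, Complex.ofReal_im, zero_mul, sub_zero,
    add_zero]
  rcases eq_or_lt_of_le hs with h0 | h0
  · subst h0
    have : t = 1 := by linarith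
    subst this
    simp [g1, g2, g3, g4]
  · have ht' : t = 1 - s := by linarith
    subst ht'
    refine ⟨?_, ?_, ?_, ?_⟩ <;> nlinarith

lemma ocell_eq (c : ℤ × ℤ) : ocell c = orect c.1 (c.1 + 1) c.2 (c.2 + 1) := rfl

lemma isOpen_ocell (c : ℤ × ℤ) : IsOpen (ocell c) := by
  rw [ocell_eq]; exact isOpen_orect _ _ _ _

lemma ocell_subset (c : ℤ × ℤ) : ocell c ⊆ cell c :=
  fun _ h => ⟨h.1.le, h.2.1.le, h.2.2.1.le, h.2.2.2.le⟩

lemma isClosed_cell (c : ℤ × ℤ) : IsClosed (cell c) := by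
  unfold cell
  refine IsClosed.inter (isClosed_le continuous_const Complex.continuous_re) ?_
  refine IsClosed.inter (isClosed_le Complex.continuous_re continuous_const) ?_
  exact IsClosed.inter (isClosed_le continuous_const Complex.continuous_im)
    (isClosed_le Complex.continuous_im continuous_const)

lemma isClosed_region (K : Finset (ℤ × ℤ)) : IsClosed (region K) :=
  K.finite_toSet.isClosed_biUnion (fun c _ => isClosed_cell c)

lemma mem_region {K : Finset (ℤ × ℤ)} {z : ℂ} : z ∈ region K ↔ ∃ c ∈ K, z ∈ cell c := by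
  simp [region]

/-- centre of a cell -/
noncomputable def ctr (c : ℤ × ℤ) : ℂ := ⟨c.1 + 1 / 2, c.2 + 1 / 2⟩

lemma cell_subset_closure (c : ℤ × ℤ) : cell c ⊆ closure (ocell c) := by
  intro z hz
  obtain ⟨h1, h2, h3, h4⟩ := hz
  rw [Metric.mem_closure_iff]
  intro ε hε
  -- point on the segment from the centre to z
  set t : ℝ := min (1 / 2) (ε / 4) with ht
  have ht0 : 0 < t := by positivity
  have ht1 : t ≤ 1 / 2 := min_le_left _ _
  have ht2 : t ≤ ε / 4 := min_le_right _ _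
  refine ⟨⟨z.re + t * (c.1 + 1 / 2 - z.re), z.im + t * (c.2 + 1 / 2 - z.im)⟩, ?_, ?_⟩
  · refine ⟨?_, ?_, ?_, ?_⟩ <;> simp only <;> nlinarith
  · rw [Complex.dist_eq]
    have : z - ⟨z.re + t * (c.1 + 1 / 2 - z.re), z.im + t * (c.2 + 1 / 2 - z.im)⟩ =
        (⟨t * (z.re - (c.1 + 1 / 2)), t * (z.im - (c.2 + 1 / 2))⟩ : ℂ) := by
      apply Complex.ext <;> simp <;> ring
    rw [this]
    calc ‖(⟨t * (z.re - (c.1 + 1 / 2)), t * (z.im - (c.2 + 1 / 2))⟩ : ℂ)‖
        ≤ |t * (z.re - (c.1 + 1 / 2))| + |t * (z.im - (c.2 + 1 / 2))| :=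
          Complex.norm_le_abs_re_add_abs_im _
      _ ≤ t * (1 / 2) + t * (1 / 2) := by
          rw [abs_mul, abs_mul, abs_of_pos ht0]
          have e1 : |z.re - (c.1 + 1 / 2)| ≤ 1 / 2 := abs_le.2 ⟨by linarith, by linarith⟩
          have e2 : |z.im - (c.2 + 1 / 2)| ≤ 1 / 2 := abs_le.2 ⟨by linarith, by linarith⟩
          nlinarith
      _ < ε := by linarith

/-- Coordinates of an isometry. -/
lemma iso_coord (φ : ℂ ≃ᵢ ℂ) : ∃ p q r s b₁ b₂ : ℝ, p ^ 2 + q ^ 2 = 1 ∧ r ^ 2 + s ^ 2 = 1 ∧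
    p * r + q * s = 0 ∧
    ∀ z, φ z = ⟨p * z.re + q * z.im + b₁, r * z.re + s * z.im + b₂⟩ := by
  obtain ⟨a, ha⟩ := linear_isometry_complex φ.toRealLinearIsometryEquiv
  have hφ : ∀ z, φ z = φ.toRealLinearIsometryEquiv z + φ 0 := by
    intro z
    rw [IsometryEquiv.toRealLinearIsometryEquiv_apply]
    ring
  have hn : (a : ℂ).re ^ 2 + (a : ℂ).im ^ 2 = 1 := by
    have h1 : Complex.normSq (a : ℂ) = 1 := by
      rw [Complex.normSq_eq_norm_sq]; simp
    rw [Complex.normSq_apply] at h1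
    nlinarith
  rcases ha with ha | ha
  · refine ⟨(a : ℂ).re, -(a : ℂ).im, (a : ℂ).im, (a : ℂ).re, (φ 0).re, (φ 0).im,
      by nlinarith, by nlinarith, by ring, ?_⟩
    intro z
    rw [hφ z, ha, rotation_apply]
    apply Complex.ext <;> simp <;> ring
  · refine ⟨(a : ℂ).re, (a : ℂ).im, (a : ℂ).im, -(a : ℂ).re, (φ 0).re, (φ 0).im,
      by nlinarith, by nlinarith, by ring, ?_⟩
    intro z
    rw [hφ z, ha]
    simp only [LinearIsometryEquiv.trans_apply, rotation_apply, Complex.conjLIE_apply]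
    apply Complex.ext <;> simp <;> ring

/-- Isometries preserve the area. -/
lemma volume_image (φ : ℂ ≃ᵢ ℂ) (S : Set ℂ) : volume (φ '' S) = volume S := by
  have hmp : MeasurePreserving (⇑φ) volume volume := by
    have h1 : MeasurePreserving (⇑φ.toRealLinearIsometryEquiv) volume volume :=
      φ.toRealLinearIsometryEquiv.measurePreserving
    have h2 := (measurePreserving_add_right (volume : Measure ℂ) (φ 0)).comp h1
    have h3 : (fun x => x + φ 0) ∘ ⇑φ.toRealLinearIsometryEquiv = ⇑φ := by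
      funext z
      simp [IsometryEquiv.toRealLinearIsometryEquiv_apply]
    rwa [h3] at h2
  have h4 := MeasurePreserving.measure_preimage_equiv (μa := volume) (μb := volume)
    (f := φ.toHomeomorph.toMeasurableEquiv) hmp (φ '' S)
  have h5 : (⇑φ.toHomeomorph.toMeasurableEquiv) ⁻¹' (φ '' S) = S := by
    show (⇑φ) ⁻¹' (φ '' S) = S
    exact preimage_image_eq _ φ.injective
  rw [h5] at h4
  exact h4.symm


/-- The area of a union of cells. -/
lemma volume_orect (a b c d : ℝ) :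
    volume (orect a b c d) = ENNReal.ofReal (b - a) * ENNReal.ofReal (d - c) := by
  have h := Complex.volume_preserving_equiv_real_prod.measure_preimage_equiv
    (Ioo a b ×ˢ Ioo c d)
  have h2 : (⇑Complex.measurableEquivRealProd) ⁻¹' (Ioo a b ×ˢ Ioo c d) = orect a b c d := by
    ext z
    simp [orect, Complex.measurableEquivRealProd_apply, and_assoc]
  rw [h2] at h
  rw [h, Measure.volume_eq_prod, Measure.prod_prod, Real.volume_Ioo, Real.volume_Ioo]

lemma volume_ocell (c : ℤ × ℤ) : volume (ocell c) = 1 := by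
  rw [ocell_eq, volume_orect]
  simp

lemma volume_cell_le (c : ℤ × ℤ) : volume (cell c) ≤ 1 := by
  have h := Complex.volume_preserving_equiv_real_prod.measure_preimage_equiv
    (Icc (c.1 : ℝ) (c.1 + 1) ×ˢ Icc (c.2 : ℝ) (c.2 + 1))
  have h2 : (⇑Complex.measurableEquivRealProd) ⁻¹'
      (Icc (c.1 : ℝ) (c.1 + 1) ×ˢ Icc (c.2 : ℝ) (c.2 + 1)) = cell c := by
    ext z
    simp only [cell, mem_preimage, Complex.measurableEquivRealProd_apply, mem_prod, mem_Icc,
      mem_ofPred_eq]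
    tauto
  rw [h2] at h
  rw [h, Measure.volume_eq_prod, Measure.prod_prod, Real.volume_Icc, Real.volume_Icc]
  simp

lemma ocell_disjoint {c d : ℤ × ℤ} (h : c ≠ d) : Disjoint (ocell c) (ocell d) := by
  rw [Set.disjoint_left]
  rintro z ⟨h1, h2, h3, h4⟩ ⟨g1, g2, g3, g4⟩
  apply h
  have a1 : (c.1 : ℝ) < d.1 + 1 := by linarith
  have a2 : (d.1 : ℝ) < c.1 + 1 := by linarith
  have a3 : (c.2 : ℝ) < d.2 + 1 := by linarith
  have a4 : (d.2 : ℝ) < c.2 + 1 := by linarith
  have b1 : c.1 < d.1 + 1 := by exact_mod_cast a1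
  have b2 : d.1 < c.1 + 1 := by exact_mod_cast a2
  have b3 : c.2 < d.2 + 1 := by exact_mod_cast a3
  have b4 : d.2 < c.2 + 1 := by exact_mod_cast a4
  apply Prod.ext <;> omega

/-- the union of the open cells of a finite set -/
def oregion (K : Finset (ℤ × ℤ)) : Set ℂ := ⋃ c ∈ K, ocell c

lemma volume_oregion (K : Finset (ℤ × ℤ)) : volume (oregion K) = K.card := by
  unfold oregion
  rw [measure_biUnion_finset]
  · simp [volume_ocell]
  · intro c _ d _ h
    exact ocell_disjoint h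
  · intro c _
    exact (isOpen_ocell c).measurableSet

lemma volume_region_le (K : Finset (ℤ × ℤ)) : volume (region K) ≤ K.card := by
  unfold region
  calc volume (⋃ c ∈ K, cell c) ≤ ∑ c ∈ K, volume (cell c) := measure_biUnion_finset_le K _
    _ ≤ ∑ c ∈ K, 1 := Finset.sum_le_sum (fun c _ => volume_cell_le c)
    _ = K.card := by simp

lemma region_subset_closure (K : Finset (ℤ × ℤ)) : region K ⊆ closure (interior (region K)) := by
  intro z hz
  obtain ⟨c, hc, hz⟩ := mem_region.1 hz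
  have h1 : ocell c ⊆ interior (region K) := by
    apply interior_maximal _ (isOpen_ocell c)
    intro w hw
    exact mem_region.2 ⟨c, hc, ocell_subset c hw⟩
  exact closure_mono h1 (cell_subset_closure c hz)

/-- Open sets which do not meet the interior of a region do not meet the region. -/
lemma disjoint_region {W : Set ℂ} (hW : IsOpen W) {K : Finset (ℤ × ℤ)}
    (h : Disjoint W (interior (region K))) : Disjoint W (region K) := by
  rw [Set.disjoint_left]
  intro z hz hzK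
  have h1 := region_subset_closure K hzK
  rw [mem_closure_iff] at h1
  obtain ⟨w, hw1, hw2⟩ := h1 W hW hz
  exact Set.disjoint_left.1 h hw1 hw2

/-- Every point has a neighbourhood which is covered by the cells containing the point. -/
lemma nhds_cells (z : ℂ) : ∀ᶠ w in nhds z, ∀ c : ℤ × ℤ, w ∈ cell c → z ∈ cell c := by
  have hlf : LocallyFinite cell := by
    intro z
    refine ⟨Metric.ball z 1, Metric.ball_mem_nhds z one_pos, ?_⟩
    apply Set.Finite.subset ((Set.finite_Icc (⌊z.re⌋ - 3) (⌊z.re⌋ + 3)).prod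
      (Set.finite_Icc (⌊z.im⌋ - 3) (⌊z.im⌋ + 3)))
    rintro c ⟨w, ⟨h1, h2, h3, h4⟩, hw⟩
    rw [Metric.mem_ball, Complex.dist_eq] at hw
    have e1 : |(w - z).re| < 1 := lt_of_le_of_lt (Complex.abs_re_le_norm _) hw
    have e2 : |(w - z).im| < 1 := lt_of_le_of_lt (Complex.abs_im_le_norm _) hw
    rw [abs_lt, Complex.sub_re] at e1
    rw [abs_lt, Complex.sub_im] at e2
    have f1 := Int.floor_le z.re
    have f2 := Int.lt_floor_add_one z.re
    have f3 := Int.floor_le z.im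
    have f4 := Int.lt_floor_add_one z.im
    refine ⟨⟨?_, ?_⟩, ⟨?_, ?_⟩⟩
    · have : ((⌊z.re⌋ - 3 : ℤ) : ℝ) ≤ c.1 := by push_cast; linarith
      exact_mod_cast this
    · have : (c.1 : ℝ) ≤ ((⌊z.re⌋ + 3 : ℤ) : ℝ) := by push_cast; linarith
      exact_mod_cast this
    · have : ((⌊z.im⌋ - 3 : ℤ) : ℝ) ≤ c.2 := by push_cast; linarith
      exact_mod_cast this
    · have : (c.2 : ℝ) ≤ ((⌊z.im⌋ + 3 : ℤ) : ℝ) := by push_cast; linarith
      exact_mod_cast this
  exact hlf.eventually_subset isClosed_cell z |>.mono fun w hw c hc => hw hc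

/-- Two cells with a common point are neighbours. -/
lemma near_of_inter {c d : ℤ × ℤ} {z : ℂ} (hc : z ∈ cell c) (hd : z ∈ cell d) :
    |d.1 - c.1| ≤ 1 ∧ |d.2 - c.2| ≤ 1 := by
  obtain ⟨h1, h2, h3, h4⟩ := hc
  obtain ⟨g1, g2, g3, g4⟩ := hd
  have a1 : (c.1 : ℝ) ≤ d.1 + 1 := by linarith
  have a2 : (d.1 : ℝ) ≤ c.1 + 1 := by linarith
  have a3 : (c.2 : ℝ) ≤ d.2 + 1 := by linarith
  have a4 : (d.2 : ℝ) ≤ c.2 + 1 := by linarith
  have b1 : c.1 ≤ d.1 + 1 := by exact_mod_cast a1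
  have b2 : d.1 ≤ c.1 + 1 := by exact_mod_cast a2
  have b3 : c.2 ≤ d.2 + 1 := by exact_mod_cast a3
  have b4 : d.2 ≤ c.2 + 1 := by exact_mod_cast a4
  constructor <;> rw [abs_le] <;> constructor <;> omega


lemma one_lt_abs_add {r s : ℝ} (h : r ^ 2 + s ^ 2 = 1) (hne : r * s ≠ 0) : 1 < |r| + |s| := by
  have h1 : 0 < |r| * |s| := by rw [← abs_mul]; exact abs_pos.2 hne
  have h2 : |r| ^ 2 + |s| ^ 2 = 1 := by rw [sq_abs, sq_abs]; exact h
  nlinarith [abs_nonneg r, abs_nonneg s]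

lemma abs_add_lt_two {p q : ℝ} (h : p ^ 2 + q ^ 2 = 1) : |p| + |q| < 2 := by
  have h2 : |p| ^ 2 + |q| ^ 2 = 1 := by rw [sq_abs, sq_abs]; exact h
  nlinarith [abs_nonneg p, abs_nonneg q, sq_nonneg (|p| - |q|)]

lemma cell_seg {c : ℤ × ℤ} {z w : ℂ} (hz : z ∈ cell c) (hw : w ∈ cell c) {t : ℝ} (h0 : 0 ≤ t)
    (h1 : t ≤ 1) : (⟨z.re + t * (w.re - z.re), z.im + t * (w.im - z.im)⟩ : ℂ) ∈ cell c := by
  obtain ⟨a1, a2, a3, a4⟩ := hz
  obtain ⟨g1, g2, g3, g4⟩ := hw
  refine ⟨?_, ?_, ?_, ?_⟩ <;> simp only <;> nlinarith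

/-- A rotated square cannot have a point in the middle of the corridor. -/
lemma corridor {K K0 : Finset (ℤ × ℤ)} {X : ℤ}
    (h8 : orect (X - 2) (X + 2) 8 9 ⊆ region K0) (h6 : orect (X - 2) (X + 2) 6 7 ⊆ region K0)
    (φ : ℂ ≃ᵢ ℂ) {p q r s b₁ b₂ : ℝ} (hpq : p ^ 2 + q ^ 2 = 1) (hrs : r ^ 2 + s ^ 2 = 1)
    (hφ : ∀ z, φ z = ⟨p * z.re + q * z.im + b₁, r * z.re + s * z.im + b₂⟩) (hne : r * s ≠ 0)
    (hdis : Disjoint (interior (φ '' region K)) (region K0)) {w : ℂ} (hw : w ∈ φ '' region K)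
    (hX : w.re = X) (h7 : 7 < w.im) (h7' : w.im < 8) : False := by
  obtain ⟨z0, hz0, rfl⟩ := hw
  obtain ⟨c, hc, hz0⟩ := mem_region.1 hz0
  -- all points of the square are in the closure of the interior of the tile
  have hcl : ∀ z ∈ cell c, φ z ∈ closure (interior (φ '' region K)) := by
    intro z hz
    have h1 : φ '' ocell c ⊆ interior (φ '' region K) := by
      apply interior_maximal
      · apply image_mono
        intro w hw
        exact mem_region.2 ⟨c, hc, ocell_subset c hw⟩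
      · exact φ.toHomeomorph.isOpenMap _ (isOpen_ocell c)
    have h2 : φ z ∈ closure (φ '' ocell c) := by
      have := image_closure_subset_closure_image (f := φ) φ.continuous (s := ocell c)
      exact this ⟨z, cell_subset_closure c hz, rfl⟩
    exact closure_mono h1 h2
  have hopen : ∀ R : Set ℂ, IsOpen R → R ⊆ region K0 → ∀ z ∈ cell c, φ z ∉ R := by
    intro R hR hRK z hz hzR
    have h1 := hcl z hz
    rw [mem_closure_iff] at h1
    obtain ⟨y, hy1, hy2⟩ := h1 R hR hzR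
    exact Set.disjoint_left.1 hdis hy2 (hRK hy1)
  have key1 := one_lt_abs_add hrs hne
  have key2 := abs_add_lt_two hpq
  -- distances in the direction of the real axis
  have hre : ∀ z ∈ cell c, |(φ z).re - X| < 2 := by
    intro z hz
    rw [← hX, hφ, hφ]
    simp only
    have e1 : |z.re - z0.re| ≤ 1 := by
      obtain ⟨a1, a2, a3, a4⟩ := hz
      obtain ⟨g1, g2, g3, g4⟩ := hz0
      exact abs_le.2 ⟨by linarith, by linarith⟩
    have e2 : |z.im - z0.im| ≤ 1 := by
      obtain ⟨a1, a2, a3, a4⟩ := hz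
      obtain ⟨g1, g2, g3, g4⟩ := hz0
      exact abs_le.2 ⟨by linarith, by linarith⟩
    calc |p * z.re + q * z.im + b₁ - (p * z0.re + q * z0.im + b₁)|
        = |p * (z.re - z0.re) + q * (z.im - z0.im)| := by congr 1; ring
      _ ≤ |p * (z.re - z0.re)| + |q * (z.im - z0.im)| := abs_add_le _ _
      _ = |p| * |z.re - z0.re| + |q| * |z.im - z0.im| := by rw [abs_mul, abs_mul]
      _ ≤ |p| * 1 + |q| * 1 := by gcongr
      _ < 2 := by linarith
  -- the highest and the lowest corner of the square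
  set zM : ℂ := ⟨c.1 + (if 0 ≤ r then 1 else 0), c.2 + (if 0 ≤ s then 1 else 0)⟩ with hzM
  set zm : ℂ := ⟨c.1 + (if 0 ≤ r then 0 else 1), c.2 + (if 0 ≤ s then 0 else 1)⟩ with hzm
  have hM : zM ∈ cell c := by
    rw [hzM]; unfold cell; simp only [mem_ofPred_eq]; split_ifs <;> simp
  have hm : zm ∈ cell c := by
    rw [hzm]; unfold cell; simp only [mem_ofPred_eq]; split_ifs <;> simp
  have hdiff : (φ zM).im - (φ zm).im = |r| + |s| := by
    rw [hφ, hφ, hzM, hzm]
    simp only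
    split_ifs with i1 i2 i2
    · rw [abs_of_nonneg i1, abs_of_nonneg i2]; ring
    · rw [abs_of_nonneg i1, abs_of_neg (not_le.1 i2)]; ring
    · rw [abs_of_neg (not_le.1 i1), abs_of_nonneg i2]; ring
    · rw [abs_of_neg (not_le.1 i1), abs_of_neg (not_le.1 i2)]; ring
  -- points of the square at a given height
  have hlev : ∀ z1 ∈ cell c, ∀ v : ℝ, (φ z0).im < v ∧ v ≤ (φ z1).im ∨
      v < (φ z0).im ∧ (φ z1).im ≤ v → ∃ z ∈ cell c, (φ z).im = v := by
    intro z1 hz1 v hv
    have hne' : (φ z1).im - (φ z0).im ≠ 0 := by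
      rcases hv with hv | hv
      · exact ne_of_gt (by linarith)
      · exact ne_of_lt (by linarith)
    set t : ℝ := (v - (φ z0).im) / ((φ z1).im - (φ z0).im) with ht
    have ht0 : 0 ≤ t := by
      rcases hv with hv | hv
      · apply div_nonneg <;> linarith
      · apply div_nonneg_of_nonpos <;> linarith
    have ht1 : t ≤ 1 := by
      rcases hv with hv | hv
      · rw [ht, div_le_one (by linarith)]; linarith
      · rw [ht, div_le_one_of_neg (by linarith)]; linarith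
    refine ⟨_, cell_seg hz0 hz1 ht0 ht1, ?_⟩
    have ht2 : t * ((φ z1).im - (φ z0).im) = v - (φ z0).im := by
      rw [ht]; field_simp
    rw [hφ] at ht2 ⊢
    rw [hφ z0] at ht2
    simp only at ht2 ⊢
    linear_combination ht2
  rcases lt_or_ge 8 (φ zM).im with hcase | hcase
  · obtain ⟨z, hz, hzv⟩ := hlev zM hM (min (17 / 2) (φ zM).im)
      (Or.inl ⟨by rw [lt_min_iff]; constructor <;> linarith, min_le_right _ _⟩)
    refine hopen _ (isOpen_orect _ _ _ _) h8 z hz ?_
    have h1 := abs_lt.1 (hre z hz)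
    refine ⟨by linarith, by linarith, ?_, ?_⟩
    · rw [hzv, lt_min_iff]; constructor <;> linarith
    · rw [hzv]; exact lt_of_le_of_lt (min_le_left _ _) (by norm_num)
  · have hcase2 : (φ zm).im < 7 := by linarith
    obtain ⟨z, hz, hzv⟩ := hlev zm hm (max (13 / 2) (φ zm).im)
      (Or.inr ⟨by rw [max_lt_iff]; constructor <;> linarith, le_max_right _ _⟩)
    refine hopen _ (isOpen_orect _ _ _ _) h6 z hz ?_
    have h1 := abs_lt.1 (hre z hz)
    refine ⟨by linarith, by linarith, ?_, ?_⟩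
    · rw [hzv]; exact lt_of_lt_of_le (by norm_num) (le_max_left _ _)
    · rw [hzv, max_lt_iff]; constructor <;> linarith


/-- the open rectangle spanned by two neighbouring cells -/
def domino (c d : ℤ × ℤ) : Set ℂ :=
  orect (min (c.1 : ℝ) d.1) (max (c.1 : ℝ) d.1 + 1) (min (c.2 : ℝ) d.2) (max (c.2 : ℝ) d.2 + 1)

lemma ocell_subset_domino_left (c d : ℤ × ℤ) : ocell c ⊆ domino c d := by
  rintro z ⟨h1, h2, h3, h4⟩
  refine ⟨lt_of_le_of_lt (min_le_left _ _) h1, ?_, lt_of_le_of_lt (min_le_left _ _) h3, ?_⟩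
  · exact lt_of_lt_of_le h2 (by gcongr; exact le_max_left _ _)
  · exact lt_of_lt_of_le h4 (by gcongr; exact le_max_left _ _)

lemma ocell_subset_domino_right (c d : ℤ × ℤ) : ocell d ⊆ domino c d := by
  rintro z ⟨h1, h2, h3, h4⟩
  refine ⟨lt_of_le_of_lt (min_le_right _ _) h1, ?_, lt_of_le_of_lt (min_le_right _ _) h3, ?_⟩
  · exact lt_of_lt_of_le h2 (by gcongr; exact le_max_right _ _)
  · exact lt_of_lt_of_le h4 (by gcongr; exact le_max_right _ _)

lemma domino_subset {c d : ℤ × ℤ} (h : Adj c d) : domino c d ⊆ cell c ∪ cell d := by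
  rintro z ⟨h1, h2, h3, h4⟩
  rcases h with ⟨e, h⟩ | ⟨e, h⟩
  · rw [e, min_self] at h1
    rw [e, max_self] at h2
    rcases (abs_eq (by norm_num : (0 : ℤ) ≤ 1)).1 h with h | h
    · have e2 : (c.2 : ℝ) = d.2 + 1 := by exact_mod_cast (by omega : c.2 = d.2 + 1)
      rw [min_eq_right (by linarith)] at h3
      rw [max_eq_left (by linarith)] at h4
      rcases le_total z.im c.2 with h5 | h5
      · right; exact ⟨h1.le, h2.le, h3.le, by linarith⟩
      · left; exact ⟨by rw [e]; exact h1.le, by rw [e]; exact h2.le, h5, h4.le⟩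
    · have e2 : (d.2 : ℝ) = c.2 + 1 := by exact_mod_cast (by omega : d.2 = c.2 + 1)
      rw [min_eq_left (by linarith)] at h3
      rw [max_eq_right (by linarith)] at h4
      rcases le_total z.im d.2 with h5 | h5
      · left; exact ⟨by rw [e]; exact h1.le, by rw [e]; exact h2.le, h3.le, by linarith⟩
      · right; exact ⟨h1.le, h2.le, h5, h4.le⟩
  · rw [e, min_self] at h3
    rw [e, max_self] at h4
    rcases (abs_eq (by norm_num : (0 : ℤ) ≤ 1)).1 h with h | h
    · have e2 : (c.1 : ℝ) = d.1 + 1 := by exact_mod_cast (by omega : c.1 = d.1 + 1)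
      rw [min_eq_right (by linarith)] at h1
      rw [max_eq_left (by linarith)] at h2
      rcases le_total z.re c.1 with h5 | h5
      · right; exact ⟨h1.le, by linarith, h3.le, h4.le⟩
      · left; exact ⟨h5, h2.le, by rw [e]; exact h3.le, by rw [e]; exact h4.le⟩
    · have e2 : (d.1 : ℝ) = c.1 + 1 := by exact_mod_cast (by omega : d.1 = c.1 + 1)
      rw [min_eq_left (by linarith)] at h1
      rw [max_eq_right (by linarith)] at h2
      rcases le_total z.re d.1 with h5 | h5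
      · left; exact ⟨h1.le, by linarith, by rw [e]; exact h3.le, by rw [e]; exact h4.le⟩
      · right; exact ⟨h5, h2.le, h3.le, h4.le⟩

lemma ocell_nonempty (c : ℤ × ℤ) : (ocell c).Nonempty :=
  ⟨ctr c, by refine ⟨?_, ?_, ?_, ?_⟩ <;> simp only [ctr] <;> linarith⟩

/-- every point lies in a cell -/
lemma exists_cell (z : ℂ) : ∃ c : ℤ × ℤ, z ∈ cell c :=
  ⟨(⌊z.re⌋, ⌊z.im⌋), Int.floor_le _, (Int.lt_floor_add_one _).le, Int.floor_le _,
    (Int.lt_floor_add_one _).le⟩

/-- A rotated tile cannot have points in a room. -/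
lemma trap {K K0 Rm : Finset (ℤ × ℤ)} {X : ℤ} (hw6 : (X, 6) ∈ K0) (hw8 : (X, 8) ∈ K0)
    (h8 : orect (X - 2) (X + 2) 8 9 ⊆ region K0) (h6 : orect (X - 2) (X + 2) 6 7 ⊆ region K0)
    (hF : ∀ c ∈ Rm, ∀ d : ℤ × ℤ, |d.1 - c.1| ≤ 1 → |d.2 - c.2| ≤ 1 → d ∈ Rm ∨ d ∈ K0 ∨
      (c.2 = 7 ∧ d.2 = 7 ∧ ((c.1 = X - 1 ∧ d.1 = X) ∨ (c.1 = X ∧ d.1 = X - 1))))
    (hK : EdgeConnected (K : Set (ℤ × ℤ))) (hcard : Rm.card < K.card)
    (φ : ℂ ≃ᵢ ℂ) {p q r s b₁ b₂ : ℝ} (hpq : p ^ 2 + q ^ 2 = 1) (hrs : r ^ 2 + s ^ 2 = 1)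
    (hφ : ∀ z, φ z = ⟨p * z.re + q * z.im + b₁, r * z.re + s * z.im + b₂⟩) (hne : r * s ≠ 0)
    (hdis : Disjoint (interior (φ '' region K)) (region K0)) {c t : ℤ × ℤ} (hc : c ∈ K)
    (ht : t ∈ Rm) {w : ℂ} (hwc : w ∈ φ '' cell c) (hwt : w ∈ ocell t) : False := by
  set W : Set ℂ := interior (φ '' region K) with hW
  set U : Set ℂ := interior (region Rm) with hU
  have claim1 : ∀ z ∈ region Rm, z ∈ W → z ∈ U := by
    intro z hz hzW
    have hzK0 : z ∉ region K0 := fun h => Set.disjoint_left.1 hdis hzW h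
    rw [hU, mem_interior_iff_mem_nhds]
    filter_upwards [nhds_cells z] with y hy
    obtain ⟨d, hd⟩ := exists_cell y
    have hzd := hy d hd
    obtain ⟨c', hc', hzc'⟩ := mem_region.1 hz
    have hn := near_of_inter hzc' hzd
    rcases hF c' hc' d hn.1 hn.2 with h | h | ⟨h1, h2, h3⟩
    · exact mem_region.2 ⟨d, h, hd⟩
    · exact absurd (mem_region.2 ⟨d, h, hzd⟩) hzK0
    · exfalso
      obtain ⟨a1, a2, a3, a4⟩ := hzc'
      obtain ⟨g1, g2, g3, g4⟩ := hzd
      rw [h1] at a3 a4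
      push_cast at a3 a4
      have hre : z.re = X := by
        rcases h3 with ⟨h3, h5⟩ | ⟨h3, h5⟩
        · rw [h3] at a1 a2; rw [h5] at g1 g2; push_cast at a1 a2 g1 g2; linarith
        · rw [h3] at a1 a2; rw [h5] at g1 g2; push_cast at a1 a2 g1 g2; linarith
      have h7 : 7 < z.im := by
        rcases eq_or_lt_of_le a3 with h | h
        · exfalso
          apply hzK0
          refine mem_region.2 ⟨(X, 6), hw6, ?_, ?_, ?_, ?_⟩ <;> push_cast <;> linarith
        · exact h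
      have h8' : z.im < 8 := by
        rcases eq_or_lt_of_le a4 with h | h
        · exfalso
          apply hzK0
          refine mem_region.2 ⟨(X, 8), hw8, ?_, ?_, ?_, ?_⟩ <;> push_cast <;> linarith
        · linarith
      exact corridor h8 h6 φ hpq hrs hφ hne hdis (interior_subset hzW) hre h7 h8'
  have claim2 : ∀ S : Set ℂ, IsPreconnected S → S ⊆ W → (S ∩ U).Nonempty → S ⊆ U := by
    intro S hS hSW hSU
    refine hS.subset_of_closure_inter_subset isOpen_interior hSU ?_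
    rintro z ⟨hz1, hz2⟩
    refine claim1 z ?_ (hSW hz2)
    exact closure_minimal interior_subset (isClosed_region Rm) hz1
  -- isometric images of convex sets are preconnected
  have hpre : ∀ S : Set ℂ, Convex ℝ S → IsPreconnected (φ '' S) := by
    intro S hS
    exact hS.isPreconnected.image _ φ.continuous.continuousOn
  have hopen : ∀ S : Set ℂ, IsOpen S → IsOpen (φ '' S) := fun S hS =>
    φ.toHomeomorph.isOpenMap _ hS
  have hoW : ∀ c ∈ K, φ '' ocell c ⊆ W := by
    intro c hc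
    apply interior_maximal _ (hopen _ (isOpen_ocell c))
    apply image_mono
    intro w hw
    exact mem_region.2 ⟨c, hc, ocell_subset c hw⟩
  have hdW : ∀ c ∈ K, ∀ d ∈ K, Adj c d → φ '' domino c d ⊆ W := by
    intro c hc d hd hcd
    apply interior_maximal _ (hopen _ (isOpen_orect _ _ _ _))
    apply image_mono
    intro w hw
    rcases domino_subset hcd hw with h | h
    · exact mem_region.2 ⟨c, hc, h⟩
    · exact mem_region.2 ⟨d, hd, h⟩
  have hstart : φ '' ocell c ⊆ U := by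
    apply claim2 _ (hpre _ (by rw [ocell_eq]; exact convex_orect _ _ _ _)) (hoW c hc)
    obtain ⟨z, hz, rfl⟩ := hwc
    have h2 : φ z ∈ closure (φ '' ocell c) := by
      have := image_closure_subset_closure_image (f := φ) φ.continuous (s := ocell c)
      exact this ⟨z, cell_subset_closure c hz, rfl⟩
    rw [mem_closure_iff] at h2
    obtain ⟨y, hy1, hy2⟩ := h2 (ocell t) (isOpen_ocell t) hwt
    refine ⟨y, hy2, ?_⟩
    apply interior_maximal _ (isOpen_ocell t) hy1
    intro w hw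
    exact mem_region.2 ⟨t, ht, ocell_subset t hw⟩
  have hall : ∀ d ∈ K, φ '' ocell d ⊆ U := by
    intro d hd
    have hpath := hK c hc d hd
    induction hpath with
    | refl => exact hstart
    | @tail a b hab hb ih =>
      have haK : a ∈ K := by
        rcases Relation.ReflTransGen.cases_tail hab with h | ⟨e, _, he⟩
        · rw [h]; exact hc
        · exact he.2
      have ih' := ih haK
      have h1 : φ '' domino a b ⊆ U := by
        apply claim2 _ (hpre _ (convex_orect _ _ _ _)) (hdW a haK b hb.2 hb.1)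
        obtain ⟨y, hy⟩ := ocell_nonempty a
        exact ⟨φ y, ⟨y, ocell_subset_domino_left a b hy, rfl⟩, ih' ⟨y, hy, rfl⟩⟩
      exact (image_mono (ocell_subset_domino_right a b)).trans h1
  have hsub : φ '' oregion K ⊆ region Rm := by
    rintro _ ⟨z, hz, rfl⟩
    simp only [oregion, mem_iUnion] at hz
    obtain ⟨d, hd, hz⟩ := hz
    exact interior_subset (hall d hd ⟨z, hz, rfl⟩)
  have h1 := measure_mono (μ := volume) hsub
  rw [volume_image, volume_oregion] at h1
  have h2 := h1.trans (volume_region_le Rm)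
  have h3 : K.card ≤ Rm.card := by exact_mod_cast h2
  omega


lemma eq_one_or {x : ℝ} (h : x ^ 2 = 1) : x = 1 ∨ x = -1 := by
  have h1 : (x - 1) * (x + 1) = 0 := by linear_combination h
  rcases mul_eq_zero.1 h1 with h2 | h2
  · left; linarith
  · right; linarith

lemma axis_matrix {p q r s : ℝ} (hpq : p ^ 2 + q ^ 2 = 1) (hrs : r ^ 2 + s ^ 2 = 1)
    (ho : p * r + q * s = 0) (h : r * s = 0) :
    (r = 0 ∧ q = 0 ∧ (p = 1 ∨ p = -1) ∧ (s = 1 ∨ s = -1)) ∨
    (s = 0 ∧ p = 0 ∧ (q = 1 ∨ q = -1) ∧ (r = 1 ∨ r = -1)) := by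
  rcases mul_eq_zero.1 h with h | h
  · subst h
    have hs : s = 1 ∨ s = -1 := eq_one_or (by linarith)
    have hq : q = 0 := by
      rcases hs with rfl | rfl <;> linarith
    subst hq
    exact Or.inl ⟨rfl, rfl, eq_one_or (by linarith), hs⟩
  · subst h
    have hr : r = 1 ∨ r = -1 := eq_one_or (by linarith)
    have hp : p = 0 := by
      rcases hr with rfl | rfl <;> linarith
    subst hp
    exact Or.inr ⟨rfl, rfl, eq_one_or (by linarith), hr⟩

/-- The position of the squares of a tile whose sides are parallel to the axes. -/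
lemma axis (φ : ℂ ≃ᵢ ℂ) {p q r s b₁ b₂ : ℝ} (hpq : p ^ 2 + q ^ 2 = 1) (hrs : r ^ 2 + s ^ 2 = 1)
    (ho : p * r + q * s = 0)
    (hφ : ∀ z, φ z = ⟨p * z.re + q * z.im + b₁, r * z.re + s * z.im + b₂⟩) (h : r * s = 0) :
    ∃ (ρ : ℤ × ℤ → ℤ × ℤ) (e₁ e₂ : ℝ), 0 ≤ e₁ ∧ e₁ < 1 ∧ 0 ≤ e₂ ∧ e₂ < 1 ∧
      Function.Injective ρ ∧ (∀ c d, Adj c d → Adj (ρ c) (ρ d)) ∧
      ∀ c, φ '' cell c = {w | |w.re - ((ρ c).1 + e₁)| ≤ 1 / 2 ∧ |w.im - ((ρ c).2 + e₂)| ≤ 1 / 2} := by
  rcases axis_matrix hpq hrs ho h with ⟨hr, hq, hp, hs⟩ | ⟨hs, hp, hq, hr⟩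
  · subst hr hq
    obtain ⟨P, hP, hPP⟩ : ∃ P : ℤ, p = P ∧ (P = 1 ∨ P = -1) := by
      rcases hp with h | h
      · exact ⟨1, by simp [h], Or.inl rfl⟩
      · exact ⟨-1, by simp [h], Or.inr rfl⟩
    obtain ⟨S, hS, hSS⟩ : ∃ S : ℤ, s = S ∧ (S = 1 ∨ S = -1) := by
      rcases hs with h | h
      · exact ⟨1, by simp [h], Or.inl rfl⟩
      · exact ⟨-1, by simp [h], Or.inr rfl⟩
    subst hP hS
    refine ⟨fun c => (P * c.1 + ⌊(P : ℝ) / 2 + b₁⌋, S * c.2 + ⌊(S : ℝ) / 2 + b₂⌋),
      Int.fract ((P : ℝ) / 2 + b₁), Int.fract ((S : ℝ) / 2 + b₂), Int.fract_nonneg _,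
      Int.fract_lt_one _, Int.fract_nonneg _, Int.fract_lt_one _, ?_, ?_, ?_⟩
    · intro c d hcd
      simp only [Prod.mk.injEq] at hcd
      obtain ⟨h1, h2⟩ := hcd
      rcases hPP with rfl | rfl <;> rcases hSS with rfl | rfl <;> apply Prod.ext <;> omega
    · intro c d hcd
      unfold Adj at hcd ⊢
      simp only
      rcases hPP with rfl | rfl <;> rcases hSS with rfl | rfl <;>
        rcases hcd with ⟨h1, h2⟩ | ⟨h1, h2⟩ <;>
        rcases (abs_eq (by norm_num : (0 : ℤ) ≤ 1)).1 h2 with h2 | h2 <;>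
        first
        | (left; refine ⟨by omega, ?_⟩; rw [abs_eq (by norm_num)]; omega)
        | (right; refine ⟨by omega, ?_⟩; rw [abs_eq (by norm_num)]; omega)
    · intro c
      ext w
      obtain ⟨z, rfl⟩ := φ.surjective w
      rw [φ.injective.mem_set_image]
      have f1 := Int.floor_add_fract ((P : ℝ) / 2 + b₁)
      have f2 := Int.floor_add_fract ((S : ℝ) / 2 + b₂)
      rw [hφ]
      simp only [cell, mem_ofPred_eq]
      push_cast
      have g1 : ((P : ℝ) * z.re + 0 * z.im + b₁ - (P * c.1 + ⌊(P : ℝ) / 2 + b₁⌋ +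
          Int.fract ((P : ℝ) / 2 + b₁))) = P * (z.re - c.1 - 1 / 2) := by
        linear_combination (-1) * f1
      have g2 : (0 * z.re + (S : ℝ) * z.im + b₂ - (S * c.2 + ⌊(S : ℝ) / 2 + b₂⌋ +
          Int.fract ((S : ℝ) / 2 + b₂))) = S * (z.im - c.2 - 1 / 2) := by
        linear_combination (-1) * f2
      rw [g1, g2]
      have hPa : |(P : ℝ)| = 1 := by rcases hPP with rfl | rfl <;> simp
      have hSa : |(S : ℝ)| = 1 := by rcases hSS with rfl | rfl <;> simp
      rw [abs_mul, abs_mul, hPa, hSa, one_mul, one_mul, abs_le, abs_le]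
      constructor
      · rintro ⟨a1, a2, a3, a4⟩
        exact ⟨⟨by linarith, by linarith⟩, ⟨by linarith, by linarith⟩⟩
      · rintro ⟨⟨a1, a2⟩, ⟨a3, a4⟩⟩
        exact ⟨by linarith, by linarith, by linarith, by linarith⟩
  · subst hs hp
    obtain ⟨Q, hQ, hQQ⟩ : ∃ P : ℤ, q = P ∧ (P = 1 ∨ P = -1) := by
      rcases hq with h | h
      · exact ⟨1, by simp [h], Or.inl rfl⟩
      · exact ⟨-1, by simp [h], Or.inr rfl⟩
    obtain ⟨R, hR, hRR⟩ : ∃ S : ℤ, r = S ∧ (S = 1 ∨ S = -1) := by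
      rcases hr with h | h
      · exact ⟨1, by simp [h], Or.inl rfl⟩
      · exact ⟨-1, by simp [h], Or.inr rfl⟩
    subst hQ hR
    refine ⟨fun c => (Q * c.2 + ⌊(Q : ℝ) / 2 + b₁⌋, R * c.1 + ⌊(R : ℝ) / 2 + b₂⌋),
      Int.fract ((Q : ℝ) / 2 + b₁), Int.fract ((R : ℝ) / 2 + b₂), Int.fract_nonneg _,
      Int.fract_lt_one _, Int.fract_nonneg _, Int.fract_lt_one _, ?_, ?_, ?_⟩
    · intro c d hcd
      simp only [Prod.mk.injEq] at hcd
      obtain ⟨h1, h2⟩ := hcd
      rcases hQQ with rfl | rfl <;> rcases hRR with rfl | rfl <;> apply Prod.ext <;> omega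
    · intro c d hcd
      unfold Adj at hcd ⊢
      simp only
      rcases hQQ with rfl | rfl <;> rcases hRR with rfl | rfl <;>
        rcases hcd with ⟨h1, h2⟩ | ⟨h1, h2⟩ <;>
        rcases (abs_eq (by norm_num : (0 : ℤ) ≤ 1)).1 h2 with h2 | h2 <;>
        first
        | (left; refine ⟨by omega, ?_⟩; rw [abs_eq (by norm_num)]; omega)
        | (right; refine ⟨by omega, ?_⟩; rw [abs_eq (by norm_num)]; omega)
    · intro c
      ext w
      obtain ⟨z, rfl⟩ := φ.surjective w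
      rw [φ.injective.mem_set_image]
      have f1 := Int.floor_add_fract ((Q : ℝ) / 2 + b₁)
      have f2 := Int.floor_add_fract ((R : ℝ) / 2 + b₂)
      rw [hφ]
      simp only [cell, mem_ofPred_eq]
      push_cast
      have g1 : (0 * z.re + (Q : ℝ) * z.im + b₁ - (Q * c.2 + ⌊(Q : ℝ) / 2 + b₁⌋ +
          Int.fract ((Q : ℝ) / 2 + b₁))) = Q * (z.im - c.2 - 1 / 2) := by
        linear_combination (-1) * f1
      have g2 : ((R : ℝ) * z.re + 0 * z.im + b₂ - (R * c.1 + ⌊(R : ℝ) / 2 + b₂⌋ +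
          Int.fract ((R : ℝ) / 2 + b₂))) = R * (z.re - c.1 - 1 / 2) := by
        linear_combination (-1) * f2
      rw [g1, g2]
      have hQa : |(Q : ℝ)| = 1 := by rcases hQQ with rfl | rfl <;> simp
      have hRa : |(R : ℝ)| = 1 := by rcases hRR with rfl | rfl <;> simp
      rw [abs_mul, abs_mul, hQa, hRa, one_mul, one_mul, abs_le, abs_le]
      constructor
      · rintro ⟨a1, a2, a3, a4⟩
        exact ⟨⟨by linarith, by linarith⟩, ⟨by linarith, by linarith⟩⟩
      · rintro ⟨⟨a1, a2⟩, ⟨a3, a4⟩⟩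
        exact ⟨by linarith, by linarith, by linarith, by linarith⟩

/-- Two tiles with sides parallel to the axes whose squares have centres in the same cell overlap. -/
lemma overlap {A B : Set ℂ} {x₁ y₁ x₂ y₂ : ℝ} (h₁ : |x₁ - x₂| < 1) (h₂ : |y₁ - y₂| < 1)
    (hA : {w : ℂ | |w.re - x₁| ≤ 1 / 2 ∧ |w.im - y₁| ≤ 1 / 2} ⊆ A)
    (hB : {w : ℂ | |w.re - x₂| ≤ 1 / 2 ∧ |w.im - y₂| ≤ 1 / 2} ⊆ B) :
    ¬ Disjoint (interior A) (interior B) := by
  have key : ∀ (x y : ℝ) (S : Set ℂ), {w : ℂ | |w.re - x| ≤ 1 / 2 ∧ |w.im - y| ≤ 1 / 2} ⊆ S →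
      orect (x - 1 / 2) (x + 1 / 2) (y - 1 / 2) (y + 1 / 2) ⊆ interior S := by
    intro x y S hS
    apply interior_maximal _ (isOpen_orect _ _ _ _)
    rintro w ⟨h1, h2, h3, h4⟩
    exact hS ⟨abs_le.2 ⟨by linarith, by linarith⟩, abs_le.2 ⟨by linarith, by linarith⟩⟩
  rw [abs_lt] at h₁ h₂
  rw [Set.not_disjoint_iff]
  refine ⟨⟨(x₁ + x₂) / 2, (y₁ + y₂) / 2⟩, key _ _ _ hA ⟨?_, ?_, ?_, ?_⟩,
    key _ _ _ hB ⟨?_, ?_, ?_, ?_⟩⟩ <;> simp only <;> linarith

/-- A tile with sides parallel to the axes and with a point in a room covers the junction. -/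
lemma junction {K K0 Rm D : Finset (ℤ × ℤ)} {J : ℤ × ℤ}
    (hR : ∀ c ∈ Rm, ∀ d : ℤ × ℤ, |d.1 - c.1| ≤ 1 → |d.2 - c.2| ≤ 1 → d ∈ D ∨ d ∈ K0)
    (hD : ∀ c ∈ D, ∀ d : ℤ × ℤ, Adj c d → d ∈ D ∨ d ∈ K0 ∨ d = J)
    (hK : EdgeConnected (K : Set (ℤ × ℤ))) (hcard : D.card < K.card)
    (φ : ℂ ≃ᵢ ℂ) {ρ : ℤ × ℤ → ℤ × ℤ} {e₁ e₂ : ℝ} (he₁ : 0 ≤ e₁) (he₁' : e₁ < 1) (he₂ : 0 ≤ e₂)
    (he₂' : e₂ < 1) (hρ : Function.Injective ρ) (hadj : ∀ c d, Adj c d → Adj (ρ c) (ρ d))
    (hbox : ∀ c, φ '' cell c =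
      {w | |w.re - ((ρ c).1 + e₁)| ≤ 1 / 2 ∧ |w.im - ((ρ c).2 + e₂)| ≤ 1 / 2})
    (hdis : Disjoint (interior (φ '' region K)) (region K0)) {c t : ℤ × ℤ} (hc : c ∈ K)
    (ht : t ∈ Rm) {w : ℂ} (hwc : w ∈ φ '' cell c) (hwt : w ∈ ocell t) : ∃ c ∈ K, ρ c = J := by
  have hsub : ∀ c ∈ K, {w : ℂ | |w.re - ((ρ c).1 + e₁)| ≤ 1 / 2 ∧ |w.im - ((ρ c).2 + e₂)| ≤ 1 / 2} ⊆
      φ '' region K := by
    intro c hc
    rw [← hbox]
    apply image_mono
    intro w hw
    exact mem_region.2 ⟨c, hc, hw⟩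
  have hnot : ∀ c ∈ K, ρ c ∉ K0 := by
    intro c hc hcK
    have h1 : orect ((ρ c).1 + e₁ - 1 / 2) ((ρ c).1 + e₁ + 1 / 2) ((ρ c).2 + e₂ - 1 / 2)
        ((ρ c).2 + e₂ + 1 / 2) ⊆ interior (φ '' region K) := by
      apply interior_maximal _ (isOpen_orect _ _ _ _)
      rintro w ⟨h1, h2, h3, h4⟩
      exact hsub c hc ⟨abs_le.2 ⟨by linarith, by linarith⟩, abs_le.2 ⟨by linarith, by linarith⟩⟩
    have h2 : (⟨(ρ c).1 + e₁, (ρ c).2 + e₂⟩ : ℂ) ∈ interior (φ '' region K) := by
      apply h1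
      refine ⟨?_, ?_, ?_, ?_⟩ <;> simp only <;> linarith
    have h3 : (⟨(ρ c).1 + e₁, (ρ c).2 + e₂⟩ : ℂ) ∈ region K0 := by
      refine mem_region.2 ⟨ρ c, hcK, ?_, ?_, ?_, ?_⟩ <;> simp only <;> linarith
    exact Set.disjoint_left.1 hdis h2 h3
  by_contra hcon
  push Not at hcon
  have hstart : ρ c ∈ D := by
    rw [hbox] at hwc
    obtain ⟨h1, h2⟩ := hwc
    obtain ⟨g1, g2, g3, g4⟩ := hwt
    rw [abs_le] at h1 h2
    have a1 : ((ρ c).1 : ℝ) < t.1 + 2 := by linarith
    have a2 : (t.1 : ℝ) < (ρ c).1 + 2 := by linarith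
    have a3 : ((ρ c).2 : ℝ) < t.2 + 2 := by linarith
    have a4 : (t.2 : ℝ) < (ρ c).2 + 2 := by linarith
    have b1 : (ρ c).1 < t.1 + 2 := by exact_mod_cast a1
    have b2 : t.1 < (ρ c).1 + 2 := by exact_mod_cast a2
    have b3 : (ρ c).2 < t.2 + 2 := by exact_mod_cast a3
    have b4 : t.2 < (ρ c).2 + 2 := by exact_mod_cast a4
    rcases hR t ht (ρ c) (abs_le.2 ⟨by omega, by omega⟩) (abs_le.2 ⟨by omega, by omega⟩) with h | h
    · exact h
    · exact absurd h (hnot c hc)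
  have hall : ∀ d ∈ K, ρ d ∈ D := by
    intro d hd
    have hpath := hK c hc d hd
    induction hpath with
    | refl => exact hstart
    | @tail a b hab hb ih =>
      have haK : a ∈ K := by
        rcases Relation.ReflTransGen.cases_tail hab with h | ⟨e, _, he⟩
        · rw [h]; exact hc
        · exact he.2
      rcases hD (ρ a) (ih haK) (ρ b) (hadj _ _ hb.1) with h | h | h
      · exact h
      · exact absurd h (hnot b hb.2)
      · exact absurd h (hcon b hb.2)
  have h1 : (K.image ρ).card ≤ D.card := by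
    apply Finset.card_le_card
    intro x hx
    obtain ⟨d, hd, rfl⟩ := Finset.mem_image.1 hx
    exact hall d hd
  rw [Finset.card_image_of_injective _ hρ] at h1
  omega


/-! ### The polyomino with two rooms -/

/-- The 53 cells, listed so that every cell but the last shares an edge with a later one. -/
def omL : List (ℤ × ℤ) :=
  [(5, 8), (4, 8), (3, 8), (2, 8), (1, 8), (0, 8), (0, 7), (0, 6), (0, 5), (0, 4), (0, 3), (0, 2),
   (0, 1), (7, 8), (8, 8), (9, 8), (10, 8), (11, 8), (12, 8), (12, 7), (12, 6), (12, 5), (12, 4),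
   (12, 3), (12, 2), (12, 1), (2, 6), (3, 6), (4, 6), (5, 6), (10, 6), (9, 6), (8, 6), (7, 6),
   (6, 6), (6, 5), (6, 4), (6, 3), (6, 2), (6, 1), (12, 0), (11, 0), (10, 0), (9, 0), (8, 0),
   (7, 0), (6, 0), (5, 0), (4, 0), (3, 0), (2, 0), (1, 0), (0, 0)]

def om : Finset (ℤ × ℤ) := omL.toFinset

/-- the left room, its door and the first cells of the corridor -/
def roomL : Finset (ℤ × ℤ) :=
  ((List.range 5).flatMap fun i => (List.range 5).map fun j => ((i : ℤ) + 1, (j : ℤ) + 1)).toFinset ∪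
    {(1, 6), (1, 7), (2, 7), (3, 7)}

def roomL' : Finset (ℤ × ℤ) := roomL ∪ {(4, 7), (5, 7)}

def roomR : Finset (ℤ × ℤ) :=
  ((List.range 5).flatMap fun i => (List.range 5).map fun j => ((i : ℤ) + 7, (j : ℤ) + 1)).toFinset ∪
    {(11, 6), (11, 7), (10, 7), (9, 7)}

def roomR' : Finset (ℤ × ℤ) := roomR ∪ {(8, 7), (7, 7)}

lemma om_card : om.card = 53 := by decide +kernel

lemma roomL_card : roomL.card = 29 := by decide +kernel
lemma roomR_card : roomR.card = 29 := by decide +kernel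
lemma roomL'_card : roomL'.card = 31 := by decide +kernel
lemma roomR'_card : roomR'.card = 31 := by decide +kernel

/-- from a check for all displacements to a statement about all neighbours -/
lemma near_forall {P : ℤ × ℤ → ℤ × ℤ → Prop} {S : Finset (ℤ × ℤ)}
    (h : ∀ c ∈ S, ∀ i ∈ ({-1, 0, 1} : Finset ℤ), ∀ j ∈ ({-1, 0, 1} : Finset ℤ),
      P c (c.1 + i, c.2 + j)) :
    ∀ c ∈ S, ∀ d : ℤ × ℤ, |d.1 - c.1| ≤ 1 → |d.2 - c.2| ≤ 1 → P c d := by
  intro c hc d h1 h2
  rw [abs_le] at h1 h2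
  have h3 := h c hc (d.1 - c.1) (by simp only [Finset.mem_insert, Finset.mem_singleton]; omega)
    (d.2 - c.2) (by simp only [Finset.mem_insert, Finset.mem_singleton]; omega)
  have h4 : (c.1 + (d.1 - c.1), c.2 + (d.2 - c.2)) = d := by
    apply Prod.ext <;> simp
  rwa [h4] at h3

lemma adj_near {c d : ℤ × ℤ} (h : Adj c d) : |d.1 - c.1| ≤ 1 ∧ |d.2 - c.2| ≤ 1 := by
  rcases h with ⟨h1, h2⟩ | ⟨h1, h2⟩
  · rw [abs_sub_comm] at h2
    rw [h1, sub_self, abs_zero, h2]
    simp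
  · rw [abs_sub_comm] at h2
    rw [h1, sub_self, abs_zero, h2]
    simp

lemma roomL_F : ∀ c ∈ roomL, ∀ d : ℤ × ℤ, |d.1 - c.1| ≤ 1 → |d.2 - c.2| ≤ 1 → d ∈ roomL ∨ d ∈ om ∨
      (c.2 = 7 ∧ d.2 = 7 ∧ ((c.1 = 4 - 1 ∧ d.1 = 4) ∨ (c.1 = 4 ∧ d.1 = 4 - 1))) := by
  apply near_forall
  decide +kernel

lemma roomR_F : ∀ c ∈ roomR, ∀ d : ℤ × ℤ, |d.1 - c.1| ≤ 1 → |d.2 - c.2| ≤ 1 → d ∈ roomR ∨ d ∈ om ∨
      (c.2 = 7 ∧ d.2 = 7 ∧ ((c.1 = 9 - 1 ∧ d.1 = 9) ∨ (c.1 = 9 ∧ d.1 = 9 - 1))) := by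
  apply near_forall
  decide +kernel

lemma roomL_R : ∀ c ∈ roomL, ∀ d : ℤ × ℤ, |d.1 - c.1| ≤ 1 → |d.2 - c.2| ≤ 1 →
    d ∈ roomL' ∨ d ∈ om := by
  apply near_forall
  decide +kernel

lemma roomR_R : ∀ c ∈ roomR, ∀ d : ℤ × ℤ, |d.1 - c.1| ≤ 1 → |d.2 - c.2| ≤ 1 →
    d ∈ roomR' ∨ d ∈ om := by
  apply near_forall
  decide +kernel

lemma roomL_D : ∀ c ∈ roomL', ∀ d : ℤ × ℤ, Adj c d → d ∈ roomL' ∨ d ∈ om ∨ d = (6, 7) := by
  have h : ∀ c ∈ roomL', ∀ d : ℤ × ℤ, |d.1 - c.1| ≤ 1 → |d.2 - c.2| ≤ 1 →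
      (Adj c d → d ∈ roomL' ∨ d ∈ om ∨ d = (6, 7)) := by
    apply near_forall
    decide +kernel
  intro c hc d hcd
  exact h c hc d (adj_near hcd).1 (adj_near hcd).2 hcd

lemma roomR_D : ∀ c ∈ roomR', ∀ d : ℤ × ℤ, Adj c d → d ∈ roomR' ∨ d ∈ om ∨ d = (6, 7) := by
  have h : ∀ c ∈ roomR', ∀ d : ℤ × ℤ, |d.1 - c.1| ≤ 1 → |d.2 - c.2| ≤ 1 →
      (Adj c d → d ∈ roomR' ∨ d ∈ om ∨ d = (6, 7)) := by
    apply near_forall
    decide +kernel
  intro c hc d hcd
  exact h c hc d (adj_near hcd).1 (adj_near hcd).2 hcd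

lemma wall {a b : ℤ} {y : ℤ} (h : ∀ x ∈ Finset.Ico a b, (x, y) ∈ om) :
    orect a b y (y + 1) ⊆ region om := by
  rintro z ⟨h1, h2, h3, h4⟩
  have f1 := Int.floor_le z.re
  have f2 := Int.lt_floor_add_one z.re
  refine mem_region.2 ⟨(⌊z.re⌋, y), h _ (Finset.mem_Ico.2 ⟨?_, ?_⟩), f1, f2.le, h3.le, h4.le⟩
  · exact Int.le_floor.2 h1.le
  · exact Int.floor_lt.2 h2


/-- What happens to a tile with a point in one of the rooms. -/
lemma room_tile {Rm D : Finset (ℤ × ℤ)} {X : ℤ} (hw6 : (X, 6) ∈ om) (hw8 : (X, 8) ∈ om)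
    (h8 : orect (X - 2) (X + 2) 8 9 ⊆ region om) (h6 : orect (X - 2) (X + 2) 6 7 ⊆ region om)
    (hF : ∀ c ∈ Rm, ∀ d : ℤ × ℤ, |d.1 - c.1| ≤ 1 → |d.2 - c.2| ≤ 1 → d ∈ Rm ∨ d ∈ om ∨
      (c.2 = 7 ∧ d.2 = 7 ∧ ((c.1 = X - 1 ∧ d.1 = X) ∨ (c.1 = X ∧ d.1 = X - 1))))
    (hR : ∀ c ∈ Rm, ∀ d : ℤ × ℤ, |d.1 - c.1| ≤ 1 → |d.2 - c.2| ≤ 1 → d ∈ D ∨ d ∈ om)
    (hD : ∀ c ∈ D, ∀ d : ℤ × ℤ, Adj c d → d ∈ D ∨ d ∈ om ∨ d = (6, 7))
    (hcR : Rm.card < 53) (hcD : D.card < 53) {A : Set ℂ} {K : Finset (ℤ × ℤ)}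
    (hKc : K.card = 53) (hK : EdgeConnected (K : Set (ℤ × ℤ))) (hKA : Congruent (region K) A)
    (hdis : Disjoint (interior A) (interior (region om))) {w : ℂ} {t : ℤ × ℤ} (ht : t ∈ Rm)
    (hw : w ∈ A) (hwt : w ∈ ocell t) :
    ∃ x y : ℝ, 6 + 1 / 2 ≤ x + 1 / 2 ∧ x < 7 ∧ 7 ≤ y ∧ y < 8 ∧
      {w : ℂ | |w.re - x| ≤ 1 / 2 ∧ |w.im - y| ≤ 1 / 2} ⊆ A := by
  obtain ⟨φ, rfl⟩ := hKA
  have hdis' : Disjoint (interior (φ '' region K)) (region om) := disjoint_region isOpen_interior hdis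
  obtain ⟨z, hz, hzw⟩ := hw
  obtain ⟨c, hc, hzc⟩ := mem_region.1 hz
  have hwc : w ∈ φ '' cell c := ⟨z, hzc, hzw⟩
  obtain ⟨p, q, r, s, b₁, b₂, hpq, hrs, ho, hφ⟩ := iso_coord φ
  by_cases hne : r * s = 0
  · obtain ⟨ρ, e₁, e₂, he₁, he₁', he₂, he₂', hρ, hadj, hbox⟩ := axis φ hpq hrs ho hφ hne
    obtain ⟨d, hd, hdJ⟩ := junction (J := (6, 7)) hR hD hK (by rw [hKc]; exact hcD) φ he₁ he₁' he₂
      he₂' hρ hadj hbox hdis' hc ht hwc hwt
    refine ⟨(6 : ℤ) + e₁, (7 : ℤ) + e₂, by push_cast; linarith, by push_cast; linarith,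
      by push_cast; linarith, by push_cast; linarith, ?_⟩
    have h1 := hbox d
    rw [hdJ] at h1
    rw [← h1]
    apply image_mono
    intro w hw
    exact mem_region.2 ⟨d, hd, hw⟩
  · exact (trap hw6 hw8 h8 h6 hF hK (by rw [hKc]; exact hcR) φ hpq hrs hφ hne hdis' hc ht hwc
      hwt).elim

/-- The polyomino with two rooms occurs in no tiling by edge-connected 53-cell polyominoes. -/
lemma main (𝒯 : Set (Set ℂ)) (h𝒯 : IsTiling 𝒯)
    (hom : ∀ A ∈ 𝒯, ∃ K : Finset (ℤ × ℤ), K.card = 53 ∧ EdgeConnected (K : Set (ℤ × ℤ)) ∧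
      Congruent (region K) A) : region om ∉ 𝒯 := by
  intro hmem
  obtain ⟨hcount, hclosed, hcov, hdisj⟩ := h𝒯
  have h8L : orect ((4 : ℤ) - 2) ((4 : ℤ) + 2) 8 9 ⊆ region om := by
    have h := wall (a := 2) (b := 6) (y := 8) (by decide +kernel)
    intro z hz
    apply h
    obtain ⟨h1, h2, h3, h4⟩ := hz
    push_cast at h1 h2
    refine ⟨?_, ?_, ?_, ?_⟩ <;> push_cast <;> linarith
  have h6L : orect ((4 : ℤ) - 2) ((4 : ℤ) + 2) 6 7 ⊆ region om := by
    have h := wall (a := 2) (b := 6) (y := 6) (by decide +kernel)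
    intro z hz
    apply h
    obtain ⟨h1, h2, h3, h4⟩ := hz
    push_cast at h1 h2
    refine ⟨?_, ?_, ?_, ?_⟩ <;> push_cast <;> linarith
  have h8R : orect ((9 : ℤ) - 2) ((9 : ℤ) + 2) 8 9 ⊆ region om := by
    have h := wall (a := 7) (b := 11) (y := 8) (by decide +kernel)
    intro z hz
    apply h
    obtain ⟨h1, h2, h3, h4⟩ := hz
    push_cast at h1 h2
    refine ⟨?_, ?_, ?_, ?_⟩ <;> push_cast <;> linarith
  have h6R : orect ((9 : ℤ) - 2) ((9 : ℤ) + 2) 6 7 ⊆ region om := by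
    have h := wall (a := 7) (b := 11) (y := 6) (by decide +kernel)
    intro z hz
    apply h
    obtain ⟨h1, h2, h3, h4⟩ := hz
    push_cast at h1 h2
    refine ⟨?_, ?_, ?_, ?_⟩ <;> push_cast <;> linarith
  -- every tile with a point in one of the rooms covers a square near the junction
  have key : ∀ A ∈ 𝒯, ∀ t ∈ roomL ∪ roomR, ∀ w ∈ A, w ∈ ocell t →
      ∃ x y : ℝ, 6 ≤ x ∧ x < 7 ∧ 7 ≤ y ∧ y < 8 ∧
      {w : ℂ | |w.re - x| ≤ 1 / 2 ∧ |w.im - y| ≤ 1 / 2} ⊆ A := by
    intro A hA t ht w hw hwt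
    have hne : A ≠ region om := by
      rintro rfl
      obtain ⟨c, hc, hwc⟩ := mem_region.1 hw
      have hct : c ≠ t := by
        rintro rfl
        have : ∀ t ∈ roomL ∪ roomR, t ∉ om := by decide +kernel
        exact this c ht hc
      have h1 := cell_subset_closure c hwc
      rw [mem_closure_iff] at h1
      obtain ⟨y, hy1, hy2⟩ := h1 _ (isOpen_ocell t) hwt
      exact Set.disjoint_left.1 (ocell_disjoint hct) hy2 hy1
    obtain ⟨K, hKc, hK, hKA⟩ := hom A hA
    have hdis := hdisj A hA _ hmem hne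
    rcases Finset.mem_union.1 ht with ht | ht
    · obtain ⟨x, y, h1, h2, h3, h4, h5⟩ := room_tile (X := 4) (by decide +kernel) (by decide +kernel)
        h8L h6L roomL_F roomL_R roomL_D (by rw [roomL_card]; norm_num)
        (by rw [roomL'_card]; norm_num) hKc hK hKA hdis ht hw hwt
      exact ⟨x, y, by linarith, h2, h3, h4, h5⟩
    · obtain ⟨x, y, h1, h2, h3, h4, h5⟩ := room_tile (X := 9) (by decide +kernel) (by decide +kernel)
        h8R h6R roomR_F roomR_R roomR_D (by rw [roomR_card]; norm_num)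
        (by rw [roomR'_card]; norm_num) hKc hK hKA hdis ht hw hwt
      exact ⟨x, y, by linarith, h2, h3, h4, h5⟩
  -- there is only one such tile
  have huniq : ∀ A ∈ 𝒯, ∀ B ∈ 𝒯, (∃ t ∈ roomL ∪ roomR, ∃ w ∈ A, w ∈ ocell t) →
      (∃ t ∈ roomL ∪ roomR, ∃ w ∈ B, w ∈ ocell t) → A = B := by
    rintro A hA B hB ⟨t, ht, w, hw, hwt⟩ ⟨t', ht', w', hw', hwt'⟩
    obtain ⟨x, y, h1, h2, h3, h4, h5⟩ := key A hA t ht w hw hwt
    obtain ⟨x', y', h1', h2', h3', h4', h5'⟩ := key B hB t' ht' w' hw' hwt'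
    by_contra hne
    refine overlap ?_ ?_ h5 h5' (hdisj A hA B hB hne)
    · exact abs_lt.2 ⟨by linarith, by linarith⟩
    · exact abs_lt.2 ⟨by linarith, by linarith⟩
  -- it covers both rooms
  have hex : ∀ z : ℂ, ∃ A ∈ 𝒯, z ∈ A := by
    intro z
    have hz : z ∈ ⋃₀ 𝒯 := by rw [hcov]; trivial
    exact hz
  obtain ⟨A, hA, hzA⟩ := hex (ctr (1, 1))
  have h11 : ((1, 1) : ℤ × ℤ) ∈ roomL ∪ roomR := by decide +kernel
  have hc11 : ctr (1, 1) ∈ ocell (1, 1) := by
    refine ⟨?_, ?_, ?_, ?_⟩ <;> simp only [ctr] <;> linarith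
  have hsub : oregion (roomL ∪ roomR) ⊆ A := by
    intro w hw
    simp only [oregion, mem_iUnion] at hw
    obtain ⟨t, ht, hwt⟩ := hw
    obtain ⟨B, hB, hwB⟩ := hex w
    have := huniq A hA B hB ⟨_, h11, _, hzA, hc11⟩ ⟨t, ht, w, hwB, hwt⟩
    rw [this]
    exact hwB
  obtain ⟨K, hKc, -, φ, hφ⟩ := hom A hA
  have h1 := measure_mono (μ := volume) hsub
  rw [volume_oregion, ← hφ, volume_image] at h1
  have h2 := h1.trans (volume_region_le K)
  rw [hKc] at h2
  have h3 : (roomL ∪ roomR).card = 58 := by decide +kernel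
  rw [h3] at h2
  have h4 : (58 : ℕ) ≤ 53 := by exact_mod_cast h2
  omega


/-! ### Discs -/

lemma closedBall_diff_finite {F : Set ℂ} (hF : F.Finite) :
    IsPreconnected (Metric.closedBall (0 : ℂ) 1 \ F) := by
  have h1 : IsPreconnected (Metric.ball (0 : ℂ) 1 \ F) := by
    set f : ℂ → ℂ := fun z => ((Homeomorph.unitBall z : Metric.ball (0 : ℂ) 1) : ℂ) with hf
    have hfc : Continuous f := continuous_subtype_val.comp Homeomorph.unitBall.continuous
    have hfi : Function.Injective f :=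
      Subtype.val_injective.comp Homeomorph.unitBall.injective
    have hG : (f ⁻¹' F).Finite := hF.preimage hfi.injOn
    have h2 : IsPreconnected (f ⁻¹' F)ᶜ := by
      apply IsConnected.isPreconnected
      apply Set.Countable.isConnected_compl_of_one_lt_rank _ hG.countable
      rw [Complex.rank_real_complex]
      norm_num
    have h3 : f '' (f ⁻¹' F)ᶜ = Metric.ball (0 : ℂ) 1 \ F := by
      ext z
      constructor
      · rintro ⟨w, hw, rfl⟩
        exact ⟨(Homeomorph.unitBall w).2, hw⟩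
      · rintro ⟨h4, h5⟩
        refine ⟨Homeomorph.unitBall.symm ⟨z, h4⟩, ?_, ?_⟩
        · intro h6
          apply h5
          simpa [hf] using h6
        · simp [hf]
    rw [← h3]
    exact h2.image _ hfc.continuousOn
  apply h1.subset_closure
  · exact sdiff_subset_sdiff_left Metric.ball_subset_closedBall
  · rintro z ⟨hz, _⟩
    rw [← closure_ball (0 : ℂ) one_ne_zero] at hz
    have h4 : Dense Fᶜ := hF.countable.dense_compl ℝ
    have h5 := h4.open_subset_closure_inter (t := Metric.ball (0 : ℂ) 1) Metric.isOpen_ball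
    exact closure_minimal h5 isClosed_closure hz

lemma ocell_cell_disjoint {c d : ℤ × ℤ} (h : c ≠ d) : Disjoint (ocell c) (cell d) := by
  rw [Set.disjoint_left]
  intro z hz hzd
  have h1 := cell_subset_closure d hzd
  rw [mem_closure_iff] at h1
  obtain ⟨y, hy1, hy2⟩ := h1 _ (isOpen_ocell c) hz
  exact Set.disjoint_left.1 (ocell_disjoint h) hy1 hy2

lemma ctr_mem (c : ℤ × ℤ) : ctr c ∈ ocell c := by
  refine ⟨?_, ?_, ?_, ?_⟩ <;> simp only [ctr] <;> linarith

/-- Two cells that do not share an edge have at most one common point. -/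
lemma inter_subsingleton {a b : ℤ × ℤ} (hab : a ≠ b) (h : ¬ Adj a b) :
    (cell a ∩ cell b).Subsingleton := by
  rintro z ⟨hza, hzb⟩ w ⟨hwa, hwb⟩
  have hn := near_of_inter hza hzb
  rw [abs_le, abs_le] at hn
  obtain ⟨a1, a2, a3, a4⟩ := hza
  obtain ⟨b1, b2, b3, b4⟩ := hzb
  obtain ⟨c1, c2, c3, c4⟩ := hwa
  obtain ⟨d1, d2, d3, d4⟩ := hwb
  have h1 : a.1 ≠ b.1 := by
    intro e
    apply h
    left
    refine ⟨e, ?_⟩
    rw [abs_eq (by norm_num)]
    have : a.2 ≠ b.2 := fun e2 => hab (Prod.ext e e2)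
    omega
  have h2 : a.2 ≠ b.2 := by
    intro e
    apply h
    right
    refine ⟨e, ?_⟩
    rw [abs_eq (by norm_num)]
    omega
  have e1 : b.1 = a.1 + 1 ∨ a.1 = b.1 + 1 := by omega
  have e2 : b.2 = a.2 + 1 ∨ a.2 = b.2 + 1 := by omega
  apply Complex.ext
  · rcases e1 with e | e
    · have e' : (b.1 : ℝ) = a.1 + 1 := by exact_mod_cast e
      linarith
    · have e' : (a.1 : ℝ) = b.1 + 1 := by exact_mod_cast e
      linarith
  · rcases e2 with e | e
    · have e' : (b.2 : ℝ) = a.2 + 1 := by exact_mod_cast e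
      linarith
    · have e' : (a.2 : ℝ) = b.2 + 1 := by exact_mod_cast e
      linarith

/-- The cells of a polyomino which is a closed disc are connected by edges. -/
lemma edgeConnected_of_disc {K : Finset (ℤ × ℤ)}
    (h : Nonempty (region K ≃ₜ Metric.closedBall (0 : ℂ) 1)) :
    EdgeConnected (K : Set (ℤ × ℤ)) := by
  classical
  obtain ⟨h⟩ := h
  intro c hc d hd
  by_contra hcon
  set A : Finset (ℤ × ℤ) := K.filter
    (fun a => Relation.ReflTransGen (fun a b => Adj a b ∧ b ∈ (K : Set (ℤ × ℤ))) c a) with hA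
  set B : Finset (ℤ × ℤ) := K.filter
    (fun a => ¬ Relation.ReflTransGen (fun a b => Adj a b ∧ b ∈ (K : Set (ℤ × ℤ))) c a) with hB
  have hcA : c ∈ A := Finset.mem_filter.2 ⟨hc, Relation.ReflTransGen.refl⟩
  have hdB : d ∈ B := Finset.mem_filter.2 ⟨hd, hcon⟩
  have hAB : ∀ a ∈ A, ∀ b ∈ B, a ≠ b ∧ ¬ Adj a b := by
    intro a ha b hb
    obtain ⟨ha1, ha2⟩ := Finset.mem_filter.1 ha
    obtain ⟨hb1, hb2⟩ := Finset.mem_filter.1 hb
    refine ⟨?_, ?_⟩
    · rintro rfl
      exact hb2 ha2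
    · intro hadj
      exact hb2 (ha2.tail ⟨hadj, hb1⟩)
  set V : Set ℂ := region A ∩ region B with hV
  have hVfin : V.Finite := by
    have : V ⊆ ⋃ a ∈ A, ⋃ b ∈ B, cell a ∩ cell b := by
      rintro z ⟨h1, h2⟩
      obtain ⟨a, ha, hza⟩ := mem_region.1 h1
      obtain ⟨b, hb, hzb⟩ := mem_region.1 h2
      simp only [mem_iUnion]
      exact ⟨a, ha, b, hb, hza, hzb⟩
    refine Set.Finite.subset ?_ this
    refine A.finite_toSet.biUnion fun a ha => B.finite_toSet.biUnion fun b hb => ?_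
    exact (inter_subsingleton (hAB a ha b hb).1 (hAB a ha b hb).2).finite
  set P : Set (Metric.closedBall (0 : ℂ) 1) := {x | ((h.symm x : region K) : ℂ) ∉ V} with hP
  have hPc : Pᶜ.Finite := by
    have : Pᶜ = (fun x => ((h.symm x : region K) : ℂ)) ⁻¹' V := by
      ext x; simp [hP]
    rw [this]
    exact hVfin.preimage (Subtype.val_injective.comp h.symm.injective).injOn
  have hPpre : IsPreconnected P := by
    rw [← Topology.IsInducing.subtypeVal.isPreconnected_image]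
    have : (Subtype.val '' P) = Metric.closedBall (0 : ℂ) 1 \ (Subtype.val '' Pᶜ) := by
      ext z
      constructor
      · rintro ⟨x, hx, rfl⟩
        refine ⟨x.2, ?_⟩
        rintro ⟨y, hy, hyx⟩
        rw [Subtype.val_injective hyx] at hy
        exact hy hx
      · rintro ⟨hz, hz2⟩
        refine ⟨⟨z, hz⟩, ?_, rfl⟩
        by_contra hcon
        exact hz2 ⟨⟨z, hz⟩, hcon, rfl⟩
    rw [this]
    exact closedBall_diff_finite (hPc.image _)
  have himg := hPpre.image (fun x => ((h.symm x : region K) : ℂ))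
    (continuous_subtype_val.comp h.symm.continuous).continuousOn
  have himg_eq : (fun x => ((h.symm x : region K) : ℂ)) '' P = region K \ V := by
    ext z
    constructor
    · rintro ⟨x, hx, rfl⟩
      exact ⟨(h.symm x).2, hx⟩
    · rintro ⟨hz, hz2⟩
      refine ⟨h ⟨z, hz⟩, ?_, ?_⟩
      · simpa [hP] using hz2
      · simp
  rw [himg_eq, isPreconnected_closed_iff] at himg
  have hne : ∀ c ∈ K, ctr c ∉ V := by
    rintro c hc ⟨h1, h2⟩
    obtain ⟨a, ha, hza⟩ := mem_region.1 h1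
    obtain ⟨b, hb, hzb⟩ := mem_region.1 h2
    have hac : c = a := by
      by_contra hne
      exact Set.disjoint_left.1 (ocell_cell_disjoint hne) (ctr_mem c) hza
    have hbc : c = b := by
      by_contra hne
      exact Set.disjoint_left.1 (ocell_cell_disjoint hne) (ctr_mem c) hzb
    exact (hAB a ha b hb).1 (hac.symm.trans hbc)
  obtain ⟨z, hz1, hz2⟩ := himg (region A) (region B) (isClosed_region A) (isClosed_region B)
    (by
      rintro z ⟨hz, _⟩
      obtain ⟨a, ha, hza⟩ := mem_region.1 hz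
      by_cases hr : Relation.ReflTransGen (fun a b => Adj a b ∧ b ∈ (K : Set (ℤ × ℤ))) c a
      · exact Or.inl (mem_region.2 ⟨a, Finset.mem_filter.2 ⟨ha, hr⟩, hza⟩)
      · exact Or.inr (mem_region.2 ⟨a, Finset.mem_filter.2 ⟨ha, hr⟩, hza⟩))
    ⟨ctr c, ⟨mem_region.2 ⟨c, hc, ocell_subset c (ctr_mem c)⟩, hne c hc⟩,
      mem_region.2 ⟨c, hcA, ocell_subset c (ctr_mem c)⟩⟩
    ⟨ctr d, ⟨mem_region.2 ⟨d, hd, ocell_subset d (ctr_mem d)⟩, hne d hd⟩,
      mem_region.2 ⟨d, hdB, ocell_subset d (ctr_mem d)⟩⟩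
  exact hz1.2 hz2


lemma continuous_mk {f g : ℂ → ℝ} (hf : Continuous f) (hg : Continuous g) :
    Continuous (fun z => (⟨f z, g z⟩ : ℂ)) :=
  Complex.equivRealProdCLM.symm.continuous.comp (hf.prodMk hg)

/-- the norm with unit square -/
noncomputable def nS (w : ℂ) : ℝ := max (2 * |w.im|) |w.re|

/-- the norm with unit domino -/
noncomputable def nD (w : ℂ) : ℝ := max (2 * |w.im|) (|w.re| / 2)

lemma continuous_nS : Continuous nS := by
  unfold nS
  exact ((continuous_const.mul Complex.continuous_im.abs).max Complex.continuous_re.abs)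

lemma continuous_nD : Continuous nD := by
  unfold nD
  exact ((continuous_const.mul Complex.continuous_im.abs).max (Complex.continuous_re.abs.div_const 2))

lemma nS_pos {w : ℂ} (h : w ≠ 0) : 0 < nS w := by
  unfold nS
  by_contra hcon
  push Not at hcon
  have h1 := (max_le_iff.1 hcon).1
  have h2 := (max_le_iff.1 hcon).2
  apply h
  apply Complex.ext
  · simpa using abs_nonpos_iff.1 h2
  · have : |w.im| ≤ 0 := by linarith
    simpa using abs_nonpos_iff.1 this

lemma nD_pos {w : ℂ} (h : w ≠ 0) : 0 < nD w := by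
  unfold nD
  by_contra hcon
  push Not at hcon
  have h1 := (max_le_iff.1 hcon).1
  have h2 := (max_le_iff.1 hcon).2
  apply h
  apply Complex.ext
  · have : |w.re| ≤ 0 := by linarith
    simpa using abs_nonpos_iff.1 this
  · have : |w.im| ≤ 0 := by linarith
    simpa using abs_nonpos_iff.1 this

lemma nD_le_nS (w : ℂ) : nD w ≤ nS w := by
  unfold nD nS
  apply max_le_max le_rfl
  linarith [abs_nonneg w.re]

lemma nS_le_nD (w : ℂ) : nS w ≤ 2 * nD w := by
  unfold nD nS
  apply max_le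
  · linarith [le_max_left (2 * |w.im|) (|w.re| / 2), abs_nonneg w.im]
  · linarith [le_max_right (2 * |w.im|) (|w.re| / 2)]

lemma nS_smul {t : ℝ} (ht : 0 ≤ t) (w : ℂ) : nS ((t : ℂ) * w) = t * nS w := by
  unfold nS
  simp only [Complex.mul_re, Complex.mul_im, Complex.ofReal_re, Complex.ofReal_im, zero_mul,
    sub_zero, add_zero, abs_mul, abs_of_nonneg ht]
  rw [mul_max_of_nonneg _ _ ht]
  congr 1
  ring

lemma nD_smul {t : ℝ} (ht : 0 ≤ t) (w : ℂ) : nD ((t : ℂ) * w) = t * nD w := by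
  unfold nD
  simp only [Complex.mul_re, Complex.mul_im, Complex.ofReal_re, Complex.ofReal_im, zero_mul,
    sub_zero, add_zero, abs_mul, abs_of_nonneg ht]
  rw [mul_max_of_nonneg _ _ ht]
  congr 1 <;> ring

/-- a bounded continuous factor gives a continuous map -/
lemma continuous_scale {f : ℂ → ℝ} {C : ℝ} (hf : ∀ w, w ≠ 0 → ContinuousAt f w)
    (hb : ∀ w, |f w| ≤ C) : Continuous (fun w => ((f w : ℝ) : ℂ) * w) := by
  rw [continuous_iff_continuousAt]
  intro w
  by_cases hw : w = 0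
  · subst hw
    have h1 : Filter.Tendsto (fun w : ℂ => ((f w : ℝ) : ℂ) * w) (nhds 0) (nhds 0) := by
      rw [tendsto_zero_iff_norm_tendsto_zero]
      have h2 : Filter.Tendsto (fun w : ℂ => C * ‖w‖) (nhds 0) (nhds 0) := by
        have : Continuous (fun w : ℂ => C * ‖w‖) := by fun_prop
        have h3 := this.tendsto 0
        simpa using h3
      refine squeeze_zero (fun _ => norm_nonneg _) (fun w => ?_) h2
      rw [norm_mul, Complex.norm_real, Real.norm_eq_abs]
      exact mul_le_mul_of_nonneg_right (hb w) (norm_nonneg _)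
    show Filter.Tendsto _ _ (nhds (((f 0 : ℝ) : ℂ) * 0))
    rw [mul_zero]
    exact h1
  · exact ((Complex.continuous_ofReal.continuousAt).comp (hf w hw)).mul continuousAt_id

/-- the map that squeezes the domino into the square -/
noncomputable def sq (w : ℂ) : ℂ := ((nD w / nS w : ℝ) : ℂ) * w

/-- its inverse -/
noncomputable def unsq (w : ℂ) : ℂ := ((nS w / nD w : ℝ) : ℂ) * w

lemma continuous_sq : Continuous sq := by
  apply continuous_scale (C := 1)
  · intro w hw
    exact continuous_nD.continuousAt.div continuous_nS.continuousAt (nS_pos hw).ne'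
  · intro w
    by_cases hw : w = 0
    · subst hw; simp [nS, nD]
    · rw [abs_of_nonneg (div_nonneg (nD_pos hw).le (nS_pos hw).le), div_le_one (nS_pos hw)]
      exact nD_le_nS w

lemma continuous_unsq : Continuous unsq := by
  apply continuous_scale (C := 2)
  · intro w hw
    exact continuous_nS.continuousAt.div continuous_nD.continuousAt (nD_pos hw).ne'
  · intro w
    by_cases hw : w = 0
    · subst hw; simp [nS, nD]
    · rw [abs_of_nonneg (div_nonneg (nS_pos hw).le (nD_pos hw).le), div_le_iff₀ (nD_pos hw)]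
      exact nS_le_nD w

lemma unsq_sq (w : ℂ) : unsq (sq w) = w := by
  by_cases hw : w = 0
  · subst hw; simp [sq, unsq]
  · have h1 := nS_pos hw
    have h2 := nD_pos hw
    have h3 : 0 ≤ nD w / nS w := (div_pos h2 h1).le
    have h4 : nS (sq w) = nD w := by
      unfold sq
      rw [nS_smul h3]
      field_simp
    have h5 : nD (sq w) = nD w / nS w * nD w := by
      unfold sq
      rw [nD_smul h3]
    unfold unsq
    rw [h4, h5]
    unfold sq
    rw [← mul_assoc, ← Complex.ofReal_mul]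
    have : nD w / (nD w / nS w * nD w) * (nD w / nS w) = 1 := by field_simp
    rw [this]
    simp

lemma sq_unsq (w : ℂ) : sq (unsq w) = w := by
  by_cases hw : w = 0
  · subst hw; simp [sq, unsq]
  · have h1 := nS_pos hw
    have h2 := nD_pos hw
    have h3 : 0 ≤ nS w / nD w := (div_pos h1 h2).le
    have h4 : nD (unsq w) = nS w := by
      unfold unsq
      rw [nD_smul h3]
      field_simp
    have h5 : nS (unsq w) = nS w / nD w * nS w := by
      unfold unsq
      rw [nS_smul h3]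
    unfold sq
    rw [h4, h5]
    unfold unsq
    rw [← mul_assoc, ← Complex.ofReal_mul]
    have : nS w / (nS w / nD w * nS w) * (nS w / nD w) = 1 := by field_simp
    rw [this]
    simp

lemma sq_fix {w : ℂ} (h : |w.re| ≤ 2 * |w.im|) : sq w = w := by
  by_cases hw : w = 0
  · subst hw; simp [sq]
  · have h1 := nS_pos hw
    have h2 : nD w = nS w := by
      unfold nD nS
      rw [max_eq_left h, max_eq_left (by linarith [abs_nonneg w.re])]
    unfold sq
    rw [h2, div_self h1.ne']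
    simp

lemma unsq_fix {w : ℂ} (h : |w.re| ≤ 2 * |w.im|) : unsq w = w := by
  have h1 := sq_fix h
  calc unsq w = unsq (sq w) := by rw [h1]
    _ = w := unsq_sq w

lemma sq_re_nonneg {w : ℂ} (h : 0 ≤ w.re) : 0 ≤ (sq w).re := by
  unfold sq
  simp only [Complex.mul_re, Complex.ofReal_re, Complex.ofReal_im, zero_mul, sub_zero]
  apply mul_nonneg _ h
  unfold nD nS
  positivity

lemma unsq_re_nonneg {w : ℂ} (h : 0 ≤ w.re) : 0 ≤ (unsq w).re := by
  unfold unsq
  simp only [Complex.mul_re, Complex.ofReal_re, Complex.ofReal_im, zero_mul, sub_zero]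
  apply mul_nonneg _ h
  unfold nD nS
  positivity

lemma sq_mem {w : ℂ} (h0 : 0 ≤ w.re) (h1 : w.re ≤ 2) (h2 : |w.im| ≤ 1 / 2) :
    0 ≤ (sq w).re ∧ (sq w).re ≤ 1 ∧ |(sq w).im| ≤ 1 / 2 := by
  have h3 : nD w ≤ 1 := by
    unfold nD
    rw [abs_of_nonneg h0]
    apply max_le <;> linarith
  have h4 : nS (sq w) = nD w ∨ w = 0 := by
    by_cases hw : w = 0
    · right; exact hw
    · left
      have h1 := nS_pos hw
      have h2 := nD_pos hw
      have h3 : 0 ≤ nD w / nS w := (div_pos h2 h1).le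
      unfold sq
      rw [nS_smul h3]
      field_simp
  rcases h4 with h4 | rfl
  · rw [← h4] at h3
    unfold nS at h3
    have h5 := (max_le_iff.1 h3).1
    have h6 := (max_le_iff.1 h3).2
    exact ⟨sq_re_nonneg h0, (le_abs_self _).trans h6, by linarith⟩
  · simp [sq]

lemma unsq_mem {w : ℂ} (h0 : 0 ≤ w.re) (h1 : w.re ≤ 1) (h2 : |w.im| ≤ 1 / 2) :
    0 ≤ (unsq w).re ∧ (unsq w).re ≤ 2 ∧ |(unsq w).im| ≤ 1 / 2 := by
  have h3 : nS w ≤ 1 := by
    unfold nS
    rw [abs_of_nonneg h0]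
    apply max_le <;> linarith
  have h4 : nD (unsq w) = nS w ∨ w = 0 := by
    by_cases hw : w = 0
    · right; exact hw
    · left
      have h1 := nS_pos hw
      have h2 := nD_pos hw
      have h3 : 0 ≤ nS w / nD w := (div_pos h1 h2).le
      unfold unsq
      rw [nD_smul h3]
      field_simp
  rcases h4 with h4 | rfl
  · rw [← h4] at h3
    unfold nD at h3
    have h5 := (max_le_iff.1 h3).1
    have h6 := (max_le_iff.1 h3).2
    exact ⟨unsq_re_nonneg h0, by linarith [le_abs_self (unsq w).re], by linarith⟩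
  · simp [unsq]

/-- Coordinates adapted to two neighbouring cells. -/
lemma domino_coord {c d : ℤ × ℤ} (h : Adj c d) : ∃ τ : ℂ ≃ₜ ℂ,
    (∀ z, z ∈ cell c ↔ 0 ≤ (τ z).re ∧ (τ z).re ≤ 1 ∧ |(τ z).im| ≤ 1 / 2) ∧
    (∀ z, z ∈ cell d ↔ 1 ≤ (τ z).re ∧ (τ z).re ≤ 2 ∧ |(τ z).im| ≤ 1 / 2) ∧
    (∀ z, z ∈ domino c d ↔ 0 < (τ z).re ∧ (τ z).re < 2 ∧ |(τ z).im| < 1 / 2) := by
  rcases h with ⟨e, h⟩ | ⟨e, h⟩
  · rcases (abs_eq (by norm_num : (0 : ℤ) ≤ 1)).1 h with h | h
    · -- `d` is below `c`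
      have e1 : (c.1 : ℝ) = d.1 := by exact_mod_cast e
      have e2 : (c.2 : ℝ) = d.2 + 1 := by exact_mod_cast (by omega : c.2 = d.2 + 1)
      refine ⟨⟨⟨fun z => ⟨c.2 + 1 - z.im, z.re - c.1 - 1 / 2⟩,
        fun w => ⟨w.im + c.1 + 1 / 2, c.2 + 1 - w.re⟩, ?_, ?_⟩, ?_, ?_⟩, ?_, ?_, ?_⟩
      · intro z; apply Complex.ext <;> simp only <;> ring
      · intro z; apply Complex.ext <;> simp only <;> ring
      · exact continuous_mk (by fun_prop) (by fun_prop)
      · exact continuous_mk (by fun_prop) (by fun_prop)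
      · intro z
        show _ ↔ 0 ≤ (c.2 + 1 - z.im : ℝ) ∧ (c.2 + 1 - z.im : ℝ) ≤ 1 ∧ |z.re - c.1 - 1 / 2| ≤ 1 / 2
        rw [abs_le]
        unfold cell
        simp only [mem_ofPred_eq]
        constructor
        · rintro ⟨a1, a2, a3, a4⟩; exact ⟨by linarith, by linarith, by linarith, by linarith⟩
        · rintro ⟨a1, a2, a3, a4⟩; exact ⟨by linarith, by linarith, by linarith, by linarith⟩
      · intro z
        show _ ↔ 1 ≤ (c.2 + 1 - z.im : ℝ) ∧ (c.2 + 1 - z.im : ℝ) ≤ 2 ∧ |z.re - c.1 - 1 / 2| ≤ 1 / 2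
        rw [abs_le]
        unfold cell
        simp only [mem_ofPred_eq]
        constructor
        · rintro ⟨a1, a2, a3, a4⟩; exact ⟨by linarith, by linarith, by linarith, by linarith⟩
        · rintro ⟨a1, a2, a3, a4⟩; exact ⟨by linarith, by linarith, by linarith, by linarith⟩
      · intro z
        show _ ↔ 0 < (c.2 + 1 - z.im : ℝ) ∧ (c.2 + 1 - z.im : ℝ) < 2 ∧ |z.re - c.1 - 1 / 2| < 1 / 2
        rw [abs_lt]
        unfold domino orect
        rw [← e1, min_self, max_self, min_eq_right (by linarith), max_eq_left (by linarith)]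
        simp only [mem_ofPred_eq]
        constructor
        · rintro ⟨a1, a2, a3, a4⟩; exact ⟨by linarith, by linarith, by linarith, by linarith⟩
        · rintro ⟨a1, a2, a3, a4⟩; exact ⟨by linarith, by linarith, by linarith, by linarith⟩
    · -- `d` is above `c`
      have e1 : (c.1 : ℝ) = d.1 := by exact_mod_cast e
      have e2 : (d.2 : ℝ) = c.2 + 1 := by exact_mod_cast (by omega : d.2 = c.2 + 1)
      refine ⟨⟨⟨fun z => ⟨z.im - c.2, z.re - c.1 - 1 / 2⟩,
        fun w => ⟨w.im + c.1 + 1 / 2, c.2 + w.re⟩, ?_, ?_⟩, ?_, ?_⟩, ?_, ?_, ?_⟩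
      · intro z; apply Complex.ext <;> simp only <;> ring
      · intro z; apply Complex.ext <;> simp only <;> ring
      · exact continuous_mk (by fun_prop) (by fun_prop)
      · exact continuous_mk (by fun_prop) (by fun_prop)
      · intro z
        show _ ↔ 0 ≤ (z.im - c.2 : ℝ) ∧ (z.im - c.2 : ℝ) ≤ 1 ∧ |z.re - c.1 - 1 / 2| ≤ 1 / 2
        rw [abs_le]
        unfold cell
        simp only [mem_ofPred_eq]
        constructor
        · rintro ⟨a1, a2, a3, a4⟩; exact ⟨by linarith, by linarith, by linarith, by linarith⟩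
        · rintro ⟨a1, a2, a3, a4⟩; exact ⟨by linarith, by linarith, by linarith, by linarith⟩
      · intro z
        show _ ↔ 1 ≤ (z.im - c.2 : ℝ) ∧ (z.im - c.2 : ℝ) ≤ 2 ∧ |z.re - c.1 - 1 / 2| ≤ 1 / 2
        rw [abs_le]
        unfold cell
        simp only [mem_ofPred_eq]
        constructor
        · rintro ⟨a1, a2, a3, a4⟩; exact ⟨by linarith, by linarith, by linarith, by linarith⟩
        · rintro ⟨a1, a2, a3, a4⟩; exact ⟨by linarith, by linarith, by linarith, by linarith⟩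
      · intro z
        show _ ↔ 0 < (z.im - c.2 : ℝ) ∧ (z.im - c.2 : ℝ) < 2 ∧ |z.re - c.1 - 1 / 2| < 1 / 2
        rw [abs_lt]
        unfold domino orect
        rw [← e1, min_self, max_self, min_eq_left (by linarith), max_eq_right (by linarith)]
        simp only [mem_ofPred_eq]
        constructor
        · rintro ⟨a1, a2, a3, a4⟩; exact ⟨by linarith, by linarith, by linarith, by linarith⟩
        · rintro ⟨a1, a2, a3, a4⟩; exact ⟨by linarith, by linarith, by linarith, by linarith⟩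
  · rcases (abs_eq (by norm_num : (0 : ℤ) ≤ 1)).1 h with h | h
    · -- `d` is to the left of `c`
      have e1 : (c.2 : ℝ) = d.2 := by exact_mod_cast e
      have e2 : (c.1 : ℝ) = d.1 + 1 := by exact_mod_cast (by omega : c.1 = d.1 + 1)
      refine ⟨⟨⟨fun z => ⟨c.1 + 1 - z.re, z.im - c.2 - 1 / 2⟩,
        fun w => ⟨c.1 + 1 - w.re, w.im + c.2 + 1 / 2⟩, ?_, ?_⟩, ?_, ?_⟩, ?_, ?_, ?_⟩
      · intro z; apply Complex.ext <;> simp only <;> ring
      · intro z; apply Complex.ext <;> simp only <;> ring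
      · exact continuous_mk (by fun_prop) (by fun_prop)
      · exact continuous_mk (by fun_prop) (by fun_prop)
      · intro z
        show _ ↔ 0 ≤ (c.1 + 1 - z.re : ℝ) ∧ (c.1 + 1 - z.re : ℝ) ≤ 1 ∧ |z.im - c.2 - 1 / 2| ≤ 1 / 2
        rw [abs_le]
        unfold cell
        simp only [mem_ofPred_eq]
        constructor
        · rintro ⟨a1, a2, a3, a4⟩; exact ⟨by linarith, by linarith, by linarith, by linarith⟩
        · rintro ⟨a1, a2, a3, a4⟩; exact ⟨by linarith, by linarith, by linarith, by linarith⟩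
      · intro z
        show _ ↔ 1 ≤ (c.1 + 1 - z.re : ℝ) ∧ (c.1 + 1 - z.re : ℝ) ≤ 2 ∧ |z.im - c.2 - 1 / 2| ≤ 1 / 2
        rw [abs_le]
        unfold cell
        simp only [mem_ofPred_eq]
        constructor
        · rintro ⟨a1, a2, a3, a4⟩; exact ⟨by linarith, by linarith, by linarith, by linarith⟩
        · rintro ⟨a1, a2, a3, a4⟩; exact ⟨by linarith, by linarith, by linarith, by linarith⟩
      · intro z
        show _ ↔ 0 < (c.1 + 1 - z.re : ℝ) ∧ (c.1 + 1 - z.re : ℝ) < 2 ∧ |z.im - c.2 - 1 / 2| < 1 / 2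
        rw [abs_lt]
        unfold domino orect
        rw [← e1, min_self, max_self, min_eq_right (by linarith), max_eq_left (by linarith)]
        simp only [mem_ofPred_eq]
        constructor
        · rintro ⟨a1, a2, a3, a4⟩; exact ⟨by linarith, by linarith, by linarith, by linarith⟩
        · rintro ⟨a1, a2, a3, a4⟩; exact ⟨by linarith, by linarith, by linarith, by linarith⟩
    · -- `d` is to the right of `c`
      have e1 : (c.2 : ℝ) = d.2 := by exact_mod_cast e
      have e2 : (d.1 : ℝ) = c.1 + 1 := by exact_mod_cast (by omega : d.1 = c.1 + 1)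
      refine ⟨⟨⟨fun z => ⟨z.re - c.1, z.im - c.2 - 1 / 2⟩,
        fun w => ⟨c.1 + w.re, w.im + c.2 + 1 / 2⟩, ?_, ?_⟩, ?_, ?_⟩, ?_, ?_, ?_⟩
      · intro z; apply Complex.ext <;> simp only <;> ring
      · intro z; apply Complex.ext <;> simp only <;> ring
      · exact continuous_mk (by fun_prop) (by fun_prop)
      · exact continuous_mk (by fun_prop) (by fun_prop)
      · intro z
        show _ ↔ 0 ≤ (z.re - c.1 : ℝ) ∧ (z.re - c.1 : ℝ) ≤ 1 ∧ |z.im - c.2 - 1 / 2| ≤ 1 / 2
        rw [abs_le]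
        unfold cell
        simp only [mem_ofPred_eq]
        constructor
        · rintro ⟨a1, a2, a3, a4⟩; exact ⟨by linarith, by linarith, by linarith, by linarith⟩
        · rintro ⟨a1, a2, a3, a4⟩; exact ⟨by linarith, by linarith, by linarith, by linarith⟩
      · intro z
        show _ ↔ 1 ≤ (z.re - c.1 : ℝ) ∧ (z.re - c.1 : ℝ) ≤ 2 ∧ |z.im - c.2 - 1 / 2| ≤ 1 / 2
        rw [abs_le]
        unfold cell
        simp only [mem_ofPred_eq]
        constructor
        · rintro ⟨a1, a2, a3, a4⟩; exact ⟨by linarith, by linarith, by linarith, by linarith⟩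
        · rintro ⟨a1, a2, a3, a4⟩; exact ⟨by linarith, by linarith, by linarith, by linarith⟩
      · intro z
        show _ ↔ 0 < (z.re - c.1 : ℝ) ∧ (z.re - c.1 : ℝ) < 2 ∧ |z.im - c.2 - 1 / 2| < 1 / 2
        rw [abs_lt]
        unfold domino orect
        rw [← e1, min_self, max_self, min_eq_left (by linarith), max_eq_right (by linarith)]
        simp only [mem_ofPred_eq]
        constructor
        · rintro ⟨a1, a2, a3, a4⟩; exact ⟨by linarith, by linarith, by linarith, by linarith⟩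
        · rintro ⟨a1, a2, a3, a4⟩; exact ⟨by linarith, by linarith, by linarith, by linarith⟩


/-- Gluing a cell to a polyomino along one edge does not change the polyomino up to homeomorphism. -/
lemma glue {K : Finset (ℤ × ℤ)} {c d : ℤ × ℤ} (hc : c ∈ K) (hd : d ∉ K) (hcd : Adj c d)
    (hint : cell d ∩ region K ⊆ cell c) : Nonempty (region (insert d K) ≃ₜ region K) := by
  classical
  obtain ⟨τ, hτc, hτd, hτo⟩ := domino_coord hcd
  have hcne : c ≠ d := fun h => hd (h ▸ hc)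
  set M : Set ℂ := cell c ∪ cell d with hM
  set R : Set ℂ := region (K.erase c) with hR
  have hMcl : IsClosed M := (isClosed_cell c).union (isClosed_cell d)
  have hRcl : IsClosed R := isClosed_region _
  have hKc : region K = cell c ∪ R := by
    ext z
    rw [mem_union, mem_region, hR, mem_region]
    constructor
    · rintro ⟨b, hb, hz⟩
      by_cases hbc : b = c
      · left; rw [← hbc]; exact hz
      · right; exact ⟨b, Finset.mem_erase.2 ⟨hbc, hb⟩, hz⟩
    · rintro (hz | ⟨b, hb, hz⟩)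
      · exact ⟨c, hc, hz⟩
      · exact ⟨b, Finset.mem_of_mem_erase hb, hz⟩
  have hKd : region (insert d K) = M ∪ R := by
    ext z
    rw [mem_region, hM, hR, mem_union, mem_union, mem_region]
    constructor
    · rintro ⟨b, hb, hz⟩
      rcases Finset.mem_insert.1 hb with rfl | hb
      · left; right; exact hz
      · by_cases hbc : b = c
        · left; left; rw [← hbc]; exact hz
        · right; exact ⟨b, Finset.mem_erase.2 ⟨hbc, hb⟩, hz⟩
    · rintro ((hz | hz) | ⟨b, hb, hz⟩)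
      · exact ⟨c, Finset.mem_insert_of_mem hc, hz⟩
      · exact ⟨d, Finset.mem_insert_self _ _, hz⟩
      · exact ⟨b, Finset.mem_insert_of_mem (Finset.mem_of_mem_erase hb), hz⟩
  -- the points of the rest are fixed
  have hfixR : ∀ z ∈ cell c, z ∈ R → |(τ z).re| ≤ 2 * |(τ z).im| := by
    intro z hz hzR
    obtain ⟨b, hb, hzb⟩ := mem_region.1 hzR
    have hbc : b ≠ c := (Finset.mem_erase.1 hb).1
    have hbd : b ≠ d := fun h => hd (h ▸ (Finset.mem_erase.1 hb).2)
    have hzo : z ∉ domino c d := by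
      intro hzo
      have h1 := cell_subset_closure b hzb
      rw [mem_closure_iff] at h1
      obtain ⟨y, hy1, hy2⟩ := h1 _ (isOpen_orect _ _ _ _) hzo
      rcases domino_subset hcd hy1 with h | h
      · exact Set.disjoint_left.1 (ocell_cell_disjoint hbc) hy2 h
      · exact Set.disjoint_left.1 (ocell_cell_disjoint hbd) hy2 h
    rw [hτo] at hzo
    rw [hτc] at hz
    obtain ⟨h1, h2, h3⟩ := hz
    by_cases h4 : (τ z).re = 0
    · rw [h4, abs_zero]; positivity
    · have h5 : 0 < (τ z).re := lt_of_le_of_ne h1 (Ne.symm h4)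
      have h6 : ¬ |(τ z).im| < 1 / 2 := fun h6 => hzo ⟨h5, by linarith, h6⟩
      rw [abs_of_nonneg h1]
      linarith
  have hfixM : ∀ z ∈ M, z ∈ R → |(τ z).re| ≤ 2 * |(τ z).im| := by
    rintro z (hz | hz) hzR
    · exact hfixR z hz hzR
    · exact hfixR z (hint ⟨hz, by rw [hKc]; exact Or.inr hzR⟩) hzR
  set g : ℂ → ℂ := fun z => τ.symm (sq (τ z)) with hg
  set g' : ℂ → ℂ := fun z => τ.symm (unsq (τ z)) with hg'
  have hgc : Continuous g := τ.symm.continuous.comp (continuous_sq.comp τ.continuous)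
  have hgc' : Continuous g' := τ.symm.continuous.comp (continuous_unsq.comp τ.continuous)
  have hgg' : ∀ z, g' (g z) = z := by
    intro z
    simp only [hg, hg', Homeomorph.apply_symm_apply, unsq_sq, Homeomorph.symm_apply_apply]
  have hg'g : ∀ z, g (g' z) = z := by
    intro z
    simp only [hg, hg', Homeomorph.apply_symm_apply, sq_unsq, Homeomorph.symm_apply_apply]
  have hgfix : ∀ z, |(τ z).re| ≤ 2 * |(τ z).im| → g z = z := by
    intro z hz
    simp only [hg, sq_fix hz, Homeomorph.symm_apply_apply]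
  have hgfix' : ∀ z, |(τ z).re| ≤ 2 * |(τ z).im| → g' z = z := by
    intro z hz
    simp only [hg', unsq_fix hz, Homeomorph.symm_apply_apply]
  have hgM : ∀ z ∈ M, g z ∈ cell c := by
    intro z hz
    rw [hτc]
    simp only [hg, Homeomorph.apply_symm_apply]
    rcases hz with hz | hz
    · rw [hτc] at hz
      exact sq_mem hz.1 (by linarith [hz.2.1]) hz.2.2
    · rw [hτd] at hz
      exact sq_mem (by linarith [hz.1]) hz.2.1 hz.2.2
  have hgc_M : ∀ z ∈ cell c, g' z ∈ M := by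
    intro z hz
    rw [hτc] at hz
    have h1 := unsq_mem hz.1 hz.2.1 hz.2.2
    have h2 : τ (g' z) = unsq (τ z) := by simp only [hg', Homeomorph.apply_symm_apply]
    rw [← h2] at h1
    rcases le_total (τ (g' z)).re 1 with h3 | h3
    · left; rw [hτc]; exact ⟨h1.1, h3, h1.2.2⟩
    · right; rw [hτd]; exact ⟨h3, h1.2.1, h1.2.2⟩
  -- the two maps
  set F : ℂ → ℂ := fun z => if z ∈ M then g z else z with hF
  set F' : ℂ → ℂ := fun z => if z ∈ cell c then g' z else z with hF'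
  have hFM : ∀ z ∈ M, F z = g z := fun z hz => by simp only [hF, if_pos hz]
  have hFR : ∀ z ∈ R, F z = z := by
    intro z hz
    by_cases h : z ∈ M
    · rw [hFM z h, hgfix z (hfixM z h hz)]
    · simp only [hF, if_neg h]
  have hF'M : ∀ z ∈ cell c, F' z = g' z := fun z hz => by simp only [hF', if_pos hz]
  have hF'R : ∀ z ∈ R, F' z = z := by
    intro z hz
    by_cases h : z ∈ cell c
    · rw [hF'M z h, hgfix' z (hfixR z h hz)]
    · simp only [hF', if_neg h]
  have hFcont : ContinuousOn F (M ∪ R) := by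
    apply ContinuousOn.union_of_isClosed _ _ hMcl hRcl
    · exact hgc.continuousOn.congr hFM
    · exact continuousOn_id.congr hFR
  have hF'cont : ContinuousOn F' (cell c ∪ R) := by
    apply ContinuousOn.union_of_isClosed _ _ (isClosed_cell c) hRcl
    · exact hgc'.continuousOn.congr hF'M
    · exact continuousOn_id.congr hF'R
  have hmaps : MapsTo F (M ∪ R) (cell c ∪ R) := by
    rintro z (hz | hz)
    · left; rw [hFM z hz]; exact hgM z hz
    · right; rw [hFR z hz]; exact hz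
  have hmaps' : MapsTo F' (cell c ∪ R) (M ∪ R) := by
    rintro z (hz | hz)
    · left; rw [hF'M z hz]; exact hgc_M z hz
    · right; rw [hF'R z hz]; exact hz
  rw [hKd, hKc]
  refine ⟨⟨⟨hmaps.restrict, hmaps'.restrict, ?_, ?_⟩, hFcont.mapsToRestrict hmaps,
    hF'cont.mapsToRestrict hmaps'⟩⟩
  · rintro ⟨z, hz⟩
    apply Subtype.ext
    show F' (F z) = z
    rcases hz with hz | hz
    · rw [hFM z hz, hF'M _ (hgM z hz), hgg']
    · rw [hFR z hz, hF'R z hz]
  · rintro ⟨z, hz⟩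
    apply Subtype.ext
    show F (F' z) = z
    rcases hz with hz | hz
    · rw [hF'M z hz, hFM _ (hgc_M z hz), hg'g]
    · rw [hF'R z hz, hFR z hz]

/-- A cell is a closed disc. -/
lemma disc_cell (c : ℤ × ℤ) : Nonempty (cell c ≃ₜ Metric.closedBall (0 : ℂ) 1) := by
  have hconv : Convex ℝ (cell c) := by
    intro x hx y hy s t hs ht hst
    obtain ⟨h1, h2, h3, h4⟩ := hx
    obtain ⟨g1, g2, g3, g4⟩ := hy
    have ht' : t = 1 - s := by linarith
    subst ht'
    simp only [cell, mem_ofPred_eq, Complex.add_re, Complex.add_im, Complex.real_smul,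
      Complex.mul_re, Complex.mul_im, Complex.ofReal_re, Complex.ofReal_im, zero_mul, sub_zero,
      add_zero]
    refine ⟨?_, ?_, ?_, ?_⟩ <;> nlinarith
  have hint : (interior (cell c)).Nonempty :=
    ⟨ctr c, interior_maximal (ocell_subset c) (isOpen_ocell c)
      (by refine ⟨?_, ?_, ?_, ?_⟩ <;> simp only [ctr] <;> linarith)⟩
  have hbdd : Bornology.IsBounded (cell c) := by
    apply (Metric.isBounded_closedBall (x := (ctr c)) (r := 1)).subset
    rintro z ⟨h1, h2, h3, h4⟩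
    rw [Metric.mem_closedBall, Complex.dist_eq]
    refine (Complex.norm_le_abs_re_add_abs_im _).trans ?_
    simp only [ctr, Complex.sub_re, Complex.sub_im]
    have e1 : |z.re - (c.1 + 1 / 2)| ≤ 1 / 2 := abs_le.2 ⟨by linarith, by linarith⟩
    have e2 : |z.im - (c.2 + 1 / 2)| ≤ 1 / 2 := abs_le.2 ⟨by linarith, by linarith⟩
    linarith
  obtain ⟨h, -, h2, -⟩ := exists_homeomorph_image_interior_closure_frontier_eq_unitBall hconv hint hbdd
  rw [(isClosed_cell c).closure_eq] at h2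
  refine ⟨(h.image (cell c)).trans (Homeomorph.setCongr h2)⟩

/-- Two cells and a third one that contains their common points. -/
lemma corner_sub {a b c : ℤ × ℤ} (hca : Adj c a) (hbc : Adj b c) (h1 : |b.1 - a.1| = 1)
    (h2 : |b.2 - a.2| = 1) : cell a ∩ cell b ⊆ cell c := by
  rintro z ⟨⟨a1, a2, a3, a4⟩, ⟨b1, b2, b3, b4⟩⟩
  rw [abs_eq (by norm_num)] at h1 h2
  unfold Adj at hca hbc
  rw [abs_eq (by norm_num), abs_eq (by norm_num)] at hca hbc
  have key : (c.1 = a.1 ∧ c.2 = b.2) ∨ (c.1 = b.1 ∧ c.2 = a.2) := by omega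
  rcases key with ⟨e1, e2⟩ | ⟨e1, e2⟩
  · refine ⟨?_, ?_, ?_, ?_⟩
    · rw [e1]; exact a1
    · rw [e1]; exact a2
    · rw [e2]; exact b3
    · rw [e2]; exact b4
  · refine ⟨?_, ?_, ?_, ?_⟩
    · rw [e1]; exact b1
    · rw [e1]; exact b2
    · rw [e2]; exact a3
    · rw [e2]; exact a4

/-- The condition under which a cell may be added to a polyomino. -/
def okStep (a : ℤ × ℤ) (l : List (ℤ × ℤ)) : Prop :=
  a ∉ l ∧ ∃ c ∈ l, Adj c a ∧ ∀ b ∈ l, b = c ∨ (|b.1 - a.1| = 1 ∧ |b.2 - a.2| = 1 ∧ Adj b c) ∨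
    1 < |b.1 - a.1| ∨ 1 < |b.2 - a.2|

instance (a : ℤ × ℤ) (l : List (ℤ × ℤ)) : Decidable (okStep a l) := by
  unfold okStep; infer_instance

def okList : List (ℤ × ℤ) → Bool
  | [] => false
  | [_] => true
  | a :: b :: l => decide (okStep a (b :: l)) && okList (b :: l)

lemma disc_list : ∀ l : List (ℤ × ℤ), okList l = true →
    Nonempty (region l.toFinset ≃ₜ Metric.closedBall (0 : ℂ) 1)
  | [], h => by simp [okList] at h
  | [a], _ => by
    have : region [a].toFinset = cell a := by simp [region]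
    rw [this]
    exact disc_cell a
  | a :: b :: l, h => by
    simp only [okList, Bool.and_eq_true, decide_eq_true_eq] at h
    obtain ⟨⟨h1, c, hc, hca, hall⟩, h2⟩ := h
    obtain ⟨e⟩ := disc_list (b :: l) h2
    rw [List.toFinset_cons]
    have hc' : c ∈ (b :: l).toFinset := List.mem_toFinset.2 hc
    have ha' : a ∉ (b :: l).toFinset := fun h => h1 (List.mem_toFinset.1 h)
    obtain ⟨e'⟩ := glue hc' ha' hca (by
      rintro z ⟨hz, hz2⟩
      obtain ⟨b', hb', hzb⟩ := mem_region.1 hz2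
      rcases hall b' (List.mem_toFinset.1 hb') with h | ⟨h3, h4, h5⟩ | h | h
      · rw [← h]; exact hzb
      · exact corner_sub hca h5 h3 h4 ⟨hz, hzb⟩
      · have := (near_of_inter hz hzb).1
        omega
      · have := (near_of_inter hz hzb).2
        omega)
    exact ⟨e'.trans e⟩

lemma disc_om : Nonempty (region om ≃ₜ Metric.closedBall (0 : ℂ) 1) :=
  disc_list omL (by decide +kernel)


/-- No tiling by 53-ominoes contains a copy of the polyomino with two rooms. -/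
lemma no_copy (𝒯 : Set (Set ℂ)) (h𝒯 : IsTiling 𝒯) (hom : ByOminoes 53 𝒯) :
    ∀ A ∈ 𝒯, ¬ Congruent (region om) A := by
  rintro A hA ⟨φ, hφ⟩
  obtain ⟨hcount, hclosed, hcov, hdisj⟩ := h𝒯
  set 𝒯' : Set (Set ℂ) := (fun B => φ.symm '' B) '' 𝒯 with h𝒯'
  have hint : ∀ B : Set ℂ, interior (φ.symm '' B) = φ.symm '' interior B := fun B =>
    (φ.symm.toHomeomorph.image_interior B).symm
  refine main 𝒯' ⟨hcount.image _, ?_, ?_, ?_⟩ ?_ ?_
  · rintro _ ⟨B, hB, rfl⟩
    exact φ.symm.toHomeomorph.isClosedMap _ (hclosed B hB)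
  · apply eq_univ_of_forall
    intro z
    have hz : φ z ∈ ⋃₀ 𝒯 := by rw [hcov]; trivial
    obtain ⟨B, hB, hzB⟩ := hz
    exact ⟨_, ⟨B, hB, rfl⟩, φ z, hzB, by simp⟩
  · rintro _ ⟨B, hB, rfl⟩ _ ⟨C, hC, rfl⟩ hne
    have hBC : B ≠ C := by
      rintro rfl
      exact hne rfl
    simp only [hint]
    exact (Set.disjoint_image_iff φ.symm.injective).2 (hdisj B hB C hC hBC)
  · rintro _ ⟨B, hB, rfl⟩
    obtain ⟨K, ⟨hKc, hKd⟩, ψ, hψ⟩ := hom B hB
    refine ⟨K, hKc, edgeConnected_of_disc hKd, ψ.trans φ.symm, ?_⟩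
    rw [← hψ]
    show (fun z => φ.symm (ψ z)) '' region K = φ.symm '' (ψ '' region K)
    rw [image_image]
  · refine ⟨A, hA, ?_⟩
    show φ.symm '' A = region om
    rw [← hφ, image_image]
    simp

/-- **The answer is no.**  There is a 53-omino which is a tile of no tiling of the plane by
53-ominoes at all; in particular there is no equitransitive tiling by 53-ominoes in which every shape
of 53-omino occurs. -/
theorem result :
    ¬ Question ∧
    ∃ P : Finset (ℤ × ℤ), IsOmino 53 P ∧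
      ∀ 𝒯 : Set (Set ℂ), IsTiling 𝒯 → ByOminoes 53 𝒯 → ∀ A ∈ 𝒯, ¬ Congruent (region P) A := by
  have hom : IsOmino 53 om := ⟨om_card, disc_om⟩
  refine ⟨?_, om, hom, no_copy⟩
  intro hQ
  obtain ⟨𝒯, h1, h2, h3, -⟩ := hQ 53 (by norm_num)
  obtain ⟨A, hA, hA2⟩ := h3 om hom
  exact no_copy 𝒯 h1 h2 A hA hA2

end Pool.Agent.Results.MP_60dc17_co.TwoRooms
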